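import Mathlib

/-!
# Ideals generated by binomials, kernels of monomial maps
-/

set_option autoImplicit false

namespace Pool.Agent.V11330.TG

open MvPolynomial

/-- If a sum of terms is in the ideal, then each of the monomials is in the ideal or is a multiple
of another one of the monomials modulo the ideal. -/
def ClassProp {S K : Type} [Field K] (I : Ideal (MvPolynomial S K)) : Prop :=
  ∀ (ι : Type) (s : Finset ι) (c : ι → K) (u : ι → (S →₀ ℕ)),
    (∑ x ∈ s, monomial (u x) (c x)) ∈ I → ∀ x₀ ∈ s, c x₀ ≠ 0 →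
      (monomial (u x₀) (1 : K)) ∈ I ∨
        ∃ x ∈ s, x ≠ x₀ ∧ ∃ k : K, k ≠ 0 ∧ monomial (u x₀) (1 : K) - monomial (u x) k ∈ I

section span

variable {S K : Type} [Field K]

/-- the projection onto the span of a set of monomials -/
noncomputable def proj (r : (S →₀ ℕ) → Prop) [DecidablePred r] :
    MvPolynomial S K →ₗ[K] MvPolynomial S K :=
  (basisMonomials S K).constr K (fun m => if r m then monomial m 1 else 0)

theorem proj_monomial (r : (S →₀ ℕ) → Prop) [DecidablePred r] (m : S →₀ ℕ) (a : K) :
    proj r (monomial m a) = if r m then monomial m a else 0 := by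
  have h1 : (monomial m a : MvPolynomial S K) = a • (basisMonomials S K) m := by
    rw [coe_basisMonomials, smul_monomial, smul_eq_mul, mul_one]
  rw [h1, map_smul, proj, Module.Basis.constr_basis]
  split_ifs
  · rw [coe_basisMonomials]
  · rw [smul_zero]

theorem classProp_span (B : Set (MvPolynomial S K)) (hB : ∀ b ∈ B, b.support.card ≤ 2) :
    ClassProp (Ideal.span B) := by
  classical
  set I := Ideal.span B with hI
  intro ι s c u hs x₀ hx₀ hc
  by_contra hcon
  push Not at hcon
  obtain ⟨hcon1, hcon2⟩ := hcon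
  let R : (S →₀ ℕ) → (S →₀ ℕ) → Prop := fun m m' =>
    ∃ k : K, k ≠ 0 ∧ monomial m (1 : K) - monomial m' k ∈ I
  have hRs : ∀ m m', R m m' → R m' m := by
    rintro m m' ⟨k, hk, h⟩
    refine ⟨k⁻¹, inv_ne_zero hk, ?_⟩
    have h2 := I.mul_mem_left (C (-k⁻¹)) h
    have h3 : C (-k⁻¹) * (monomial m (1 : K) - monomial m' k) =
        monomial m' (1 : K) - monomial m k⁻¹ := by
      rw [mul_sub, C_mul_monomial, C_mul_monomial, mul_one, neg_mul, inv_mul_cancel₀ hk]
      rw [map_neg, map_neg]
      ring
    rwa [h3] at h2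
  have hRt : ∀ m m' m'', R m m' → R m' m'' → R m m'' := by
    rintro m m' m'' ⟨k, hk, h⟩ ⟨k', hk', h'⟩
    refine ⟨k * k', mul_ne_zero hk hk', ?_⟩
    have h2 := I.add_mem h (I.mul_mem_left (C k) h')
    have h3 : (monomial m (1 : K) - monomial m' k) + C k * (monomial m' (1 : K) - monomial m'' k') =
        monomial m (1 : K) - monomial m'' (k * k') := by
      rw [mul_sub, C_mul_monomial, C_mul_monomial, mul_one]
      ring
    rwa [h3] at h2
  have hR0 : R (u x₀) (u x₀) := ⟨1, one_ne_zero, by simp⟩
  let r : (S →₀ ℕ) → Prop := fun m => R (u x₀) m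
  -- the projection preserves the ideal
  have key1 : ∀ b ∈ B, ∀ (w : S →₀ ℕ) (a : K), proj r (monomial w a * b) ∈ I := by
    intro b hb w a
    have hbI : b ∈ I := Ideal.subset_span hb
    have hwb : monomial w a * b ∈ I := I.mul_mem_left _ hbI
    by_cases ha : a = 0
    · rw [ha, monomial_zero, zero_mul, map_zero]; exact I.zero_mem
    have hall : ∀ b' : MvPolynomial S K, (∀ v ∈ b'.support, r (w + v)) →
        proj r (monomial w a * b') = monomial w a * b' := by
      intro b' h
      conv_lhs => rw [b'.as_sum]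
      conv_rhs => rw [b'.as_sum]
      rw [Finset.mul_sum, map_sum]
      refine Finset.sum_congr rfl fun v hv => ?_
      rw [monomial_mul, proj_monomial, if_pos (h v hv)]
    have hnone : ∀ b' : MvPolynomial S K, (∀ v ∈ b'.support, ¬ r (w + v)) →
        proj r (monomial w a * b') = 0 := by
      intro b' h
      conv_lhs => rw [b'.as_sum]
      rw [Finset.mul_sum, map_sum]
      refine Finset.sum_eq_zero fun v hv => ?_
      rw [monomial_mul, proj_monomial, if_neg (h v hv)]
    by_cases h1 : ∀ v ∈ b.support, r (w + v)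
    · rw [hall b h1]; exact hwb
    by_cases h2 : ∀ v ∈ b.support, ¬ r (w + v)
    · rw [hnone b h2]; exact I.zero_mem
    exfalso
    push Not at h1 h2
    obtain ⟨v, hv, hv'⟩ := h1
    obtain ⟨v', hv2, hv2'⟩ := h2
    have hne : v ≠ v' := by rintro rfl; exact hv' hv2'
    have hsup : b.support = {v, v'} := by
      symm
      apply Finset.eq_of_subset_of_card_le
      · intro x hx
        rw [Finset.mem_insert, Finset.mem_singleton] at hx
        rcases hx with rfl | rfl <;> assumption
      · rw [Finset.card_pair hne]; exact hB b hb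
    have hb2 : b = monomial v (b.coeff v) + monomial v' (b.coeff v') := by
      conv_lhs => rw [b.as_sum, hsup, Finset.sum_pair hne]
    have hc1 : b.coeff v ≠ 0 := by rwa [mem_support_iff] at hv
    have hc2 : b.coeff v' ≠ 0 := by rwa [mem_support_iff] at hv2
    apply hv'
    refine hRt _ _ _ hv2' ⟨-(b.coeff v / b.coeff v'), neg_ne_zero.2 (div_ne_zero hc1 hc2), ?_⟩
    have h3 : monomial w a * b = monomial (w + v') (a * b.coeff v') + monomial (w + v) (a * b.coeff v) := by
      conv_lhs => rw [hb2, mul_add, monomial_mul, monomial_mul]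
      rw [add_comm]
    have h4 := I.mul_mem_left (C ((a * b.coeff v')⁻¹)) hwb
    rw [h3, mul_add, C_mul_monomial, C_mul_monomial, inv_mul_cancel₀ (mul_ne_zero ha hc2)] at h4
    have h5 : (a * b.coeff v')⁻¹ * (a * b.coeff v) = b.coeff v / b.coeff v' := by
      field_simp
    rw [h5] at h4
    rw [map_neg, sub_neg_eq_add]
    exact h4
  have key2 : ∀ b ∈ B, ∀ p : MvPolynomial S K, proj r (p * b) ∈ I := by
    intro b hb p
    conv in p * b => rw [p.as_sum]
    rw [Finset.sum_mul, map_sum]
    exact I.sum_mem fun w _ => key1 b hb w _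
  have key : ∀ g ∈ I, proj r g ∈ I := by
    intro g hg
    rw [hI, Ideal.span, Finsupp.mem_span_iff_linearCombination] at hg
    obtain ⟨l, rfl⟩ := hg
    rw [Finsupp.linearCombination_apply, Finsupp.sum, map_sum]
    refine I.sum_mem fun b _ => ?_
    rw [smul_eq_mul]
    exact key2 _ b.2 _
  have h6 := key _ hs
  rw [map_sum] at h6
  have h7 : ∑ x ∈ s, proj r (monomial (u x) (c x)) = monomial (u x₀) (c x₀) := by
    rw [Finset.sum_eq_single_of_mem x₀ hx₀, proj_monomial, if_pos hR0]
    intro x hx hxne
    rw [proj_monomial, if_neg]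
    rintro ⟨k, hk, h⟩
    exact hcon2 x hx hxne k hk h
  rw [h7] at h6
  apply hcon1
  have h8 := I.mul_mem_left (C (c x₀)⁻¹) h6
  rwa [C_mul_monomial, inv_mul_cancel₀ hc] at h8

end span

section ker

variable {S K : Type} [Field K]

/-- the kernel of a homomorphism which maps all variables to terms (possibly zero) -/
theorem classProp_ker {T : Type} (ψ : MvPolynomial S K →ₐ[K] MvPolynomial T K)
    (hψ : ∀ s, ∃ (m : T →₀ ℕ) (a : K), ψ (X s) = monomial m a) :
    ClassProp (RingHom.ker ψ) := by
  classical
  choose m a hma using hψ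
  have hmon : ∀ v : S →₀ ℕ, ∃ (w : T →₀ ℕ) (b : K), ψ (monomial v (1 : K)) = monomial w b := by
    intro v
    refine ⟨∑ s ∈ v.support, v s • m s, ∏ s ∈ v.support, a s ^ v s, ?_⟩
    rw [monomial_eq, Finsupp.prod, map_mul, map_prod, C_1, map_one, one_mul]
    have h1 : ∀ s ∈ v.support, ψ (X s ^ v s) = monomial (v s • m s) (a s ^ v s) := by
      intro s _
      rw [map_pow, hma, monomial_pow]
    rw [Finset.prod_congr rfl h1]
    induction v.support using Finset.induction_on with
    | empty => simp
    | insert x t hx ih => rw [Finset.prod_insert hx, Finset.sum_insert hx, Finset.prod_insert hx,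
        ih, monomial_mul]
  choose w b hwb using hmon
  intro ι s c u hs x₀ hx₀ hc
  by_cases hb0 : b (u x₀) = 0
  · left
    rw [RingHom.mem_ker]
    change ψ (monomial (u x₀) 1) = 0
    rw [hwb, hb0, monomial_zero]
  right
  have h1 : ∑ x ∈ s, monomial (w (u x)) (c x * b (u x)) = 0 := by
    have h2 : ψ (∑ x ∈ s, monomial (u x) (c x)) = 0 := hs
    rw [map_sum] at h2
    rw [← h2]
    refine Finset.sum_congr rfl fun x _ => ?_
    have h3 : (monomial (u x) (c x) : MvPolynomial S K) = c x • monomial (u x) 1 := by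
      rw [smul_monomial, smul_eq_mul, mul_one]
    rw [h3, map_smul, hwb, smul_monomial, smul_eq_mul]
  have h2 := congrArg (coeff (w (u x₀))) h1
  rw [coeff_sum, coeff_zero] at h2
  by_contra hcon
  push Not at hcon
  rw [Finset.sum_eq_single_of_mem x₀ hx₀] at h2
  · rw [coeff_monomial, if_pos rfl] at h2
    exact mul_ne_zero hc hb0 h2
  · intro x hx hxne
    rw [coeff_monomial]
    split_ifs with hw
    · by_contra h3
      have hbx : b (u x) ≠ 0 := fun h => h3 (by rw [h, mul_zero])
      apply hcon x hx hxne (b (u x₀) / b (u x)) (div_ne_zero hb0 hbx)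
      rw [RingHom.mem_ker]
      change ψ (monomial (u x₀) 1 - monomial (u x) (b (u x₀) / b (u x))) = 0
      have h4 : (monomial (u x) (b (u x₀) / b (u x)) : MvPolynomial S K) =
          (b (u x₀) / b (u x)) • monomial (u x) 1 := by
        rw [smul_monomial, smul_eq_mul, mul_one]
      rw [map_sub, h4, map_smul, hwb, hwb, hw, smul_monomial, smul_eq_mul,
        div_mul_cancel₀ _ hbx, sub_self]
    · rfl

end ker

end Pool.Agent.V11330.TG
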