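import Mathlib
import Pool.Agent.V11330.TG.Bin

/-!
# Kernels of homomorphisms to monoid algebras which map variables to terms
-/

set_option autoImplicit false

namespace Pool.Agent.V11330.TG

open MvPolynomial

variable {S K : Type} [Field K]

/-- the kernel of a homomorphism to a commutative monoid algebra (for example a Laurent polynomial
ring) which maps all variables to terms (possibly zero) -/
theorem classProp_kerMon {A : Type} [AddCommMonoid A] (ψ : MvPolynomial S K →ₐ[K] AddMonoidAlgebra K A)
    (hψ : ∀ s, ∃ (m : A) (a : K), ψ (X s) = AddMonoidAlgebra.single m a) :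
    ClassProp (RingHom.ker ψ) := by
  classical
  choose m a hma using hψ
  have hmon : ∀ v : S →₀ ℕ, ∃ (w : A) (b : K), ψ (monomial v (1 : K)) = AddMonoidAlgebra.single w b := by
    intro v
    refine ⟨∑ s ∈ v.support, v s • m s, ∏ s ∈ v.support, a s ^ v s, ?_⟩
    rw [monomial_eq, Finsupp.prod, map_mul, map_prod, C_1, map_one, one_mul]
    have h1 : ∀ s ∈ v.support, ψ (X s ^ v s) = AddMonoidAlgebra.single (v s • m s) (a s ^ v s) := by
      intro s _
      rw [map_pow, hma, AddMonoidAlgebra.single_pow]
    rw [Finset.prod_congr rfl h1]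
    induction v.support using Finset.induction_on with
    | empty => simp [AddMonoidAlgebra.one_def]
    | insert x t hx ih => rw [Finset.prod_insert hx, Finset.sum_insert hx, Finset.prod_insert hx,
        ih, AddMonoidAlgebra.single_mul_single]
  choose w b hwb using hmon
  intro ι s c u hs x₀ hx₀ hc
  by_cases hb0 : b (u x₀) = 0
  · left
    rw [RingHom.mem_ker]
    rw [hwb, hb0, AddMonoidAlgebra.single_zero]
  right
  have h1 : ∑ x ∈ s, AddMonoidAlgebra.single (w (u x)) (c x * b (u x)) = 0 := by
    have h2 : ψ (∑ x ∈ s, monomial (u x) (c x)) = 0 := hs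
    rw [map_sum] at h2
    rw [← h2]
    refine Finset.sum_congr rfl fun x _ => ?_
    have h3 : (monomial (u x) (c x) : MvPolynomial S K) = c x • monomial (u x) 1 := by
      rw [smul_monomial, smul_eq_mul, mul_one]
    rw [h3, map_smul, hwb, AddMonoidAlgebra.smul_single, smul_eq_mul]
  have h2 := congrArg (fun f : AddMonoidAlgebra K A => f.coeff (w (u x₀))) h1
  simp only [AddMonoidAlgebra.coeff_sum, AddMonoidAlgebra.coeff_single, AddMonoidAlgebra.coeff_zero,
    Finsupp.finsetSum_apply, Finsupp.single_apply, Finsupp.coe_zero, Pi.zero_apply] at h2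
  by_contra hcon
  push Not at hcon
  rw [Finset.sum_eq_single_of_mem x₀ hx₀] at h2
  · rw [if_pos rfl] at h2
    exact mul_ne_zero hc hb0 h2
  · intro x hx hxne
    split_ifs with hw
    · by_contra h3
      have hbx : b (u x) ≠ 0 := fun h => h3 (by rw [h, mul_zero])
      apply hcon x hx hxne (b (u x₀) / b (u x)) (div_ne_zero hb0 hbx)
      rw [RingHom.mem_ker]
      have h4 : (monomial (u x) (b (u x₀) / b (u x)) : MvPolynomial S K) =
          (b (u x₀) / b (u x)) • monomial (u x) 1 := by
        rw [smul_monomial, smul_eq_mul, mul_one]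
      rw [map_sub, h4, map_smul, hwb, hwb, hw, AddMonoidAlgebra.smul_single, smul_eq_mul,
        div_mul_cancel₀ _ hbx, sub_self]
    · rfl

end Pool.Agent.V11330.TG
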