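import Mathlib

/-!
# Covariance matrices of Gaussian DAG models
-/

set_option autoImplicit false

namespace Pool.Agent.V11330.TG

open Matrix Relation Finset

variable {V : Type} [Fintype V] [DecidableEq V]

/-- `Σ = (1 - Λ)^{-T} Ω (1 - Λ)^{-1}`, `Ω` the diagonal matrix with entries `ω` -/
noncomputable def covMat (L : Matrix V V ℝ) (ω : V → ℝ) : Matrix V V ℝ :=
  ((1 - L)⁻¹)ᵀ * Matrix.diagonal ω * (1 - L)⁻¹

theorem covMat_apply (L : Matrix V V ℝ) (ω : V → ℝ) (u v : V) :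
    covMat L ω u v = ∑ t, ω t * ((1 - L)⁻¹ t u * (1 - L)⁻¹ t v) := by
  rw [covMat, Matrix.mul_apply]
  refine Finset.sum_congr rfl fun t _ => ?_
  rw [Matrix.mul_diagonal, Matrix.transpose_apply]
  ring

theorem covMat_symm (L : Matrix V V ℝ) (ω : V → ℝ) (u v : V) :
    covMat L ω u v = covMat L ω v u := by
  rw [covMat_apply, covMat_apply]
  exact Finset.sum_congr rfl fun t _ => by ring

/-- the matrix is supported on an acyclic relation -/
def Acyc (L : Matrix V V ℝ) : Prop := ∃ b : V → ℕ, ∀ u v, L u v ≠ 0 → b u < b v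

theorem exists_height (E : V → V → Prop) (hE : ∀ v, ¬ TransGen E v v) :
    ∃ b : V → ℕ, ∀ u v, E u v → b u < b v := by
  classical
  refine ⟨fun v => (univ.filter fun u => TransGen E u v).card, fun u v huv => ?_⟩
  apply Finset.card_lt_card
  refine ⟨fun x hx => ?_, fun h => ?_⟩
  · rw [mem_filter] at hx ⊢
    exact ⟨mem_univ _, hx.2.tail huv⟩
  · have h1 : u ∈ univ.filter fun x => TransGen E x u :=
      h (by rw [mem_filter]; exact ⟨mem_univ _, TransGen.single huv⟩)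
    rw [mem_filter] at h1
    exact hE u h1.2

theorem acyc_of {E : V → V → Prop} (hE : ∀ v, ¬ TransGen E v v) {L : Matrix V V ℝ}
    (hL : ∀ u v, ¬ E u v → L u v = 0) : Acyc L := by
  obtain ⟨b, hb⟩ := exists_height E hE
  refine ⟨b, fun u v h => hb u v ?_⟩
  by_contra h'
  exact h (hL u v h')

theorem pow_supp {L : Matrix V V ℝ} {b : V → ℕ} (hb : ∀ u v, L u v ≠ 0 → b u < b v) (k : ℕ) :
    ∀ u v, (L ^ k) u v ≠ 0 → b u + k ≤ b v := by
  induction k with
  | zero =>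
    intro u v h
    rw [pow_zero, Matrix.one_apply] at h
    have : u = v := by by_contra h'; exact h (if_neg h')
    rw [this, add_zero]
  | succ k ih =>
    intro u v h
    rw [pow_succ, Matrix.mul_apply] at h
    obtain ⟨p, -, hp⟩ := Finset.exists_ne_zero_of_sum_ne_zero h
    have h1 := ih u p (left_ne_zero_of_mul hp)
    have h2 := hb p v (right_ne_zero_of_mul hp)
    omega

theorem exists_pow_zero {L : Matrix V V ℝ} (hL : Acyc L) : ∃ N, L ^ N = 0 := by
  obtain ⟨b, hb⟩ := hL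
  refine ⟨(univ.sup b) + 1, ?_⟩
  ext u v
  by_contra h
  have h1 := pow_supp hb _ u v h
  have h2 : b v ≤ univ.sup b := Finset.le_sup (Finset.mem_univ v)
  omega

theorem inv_eq {L : Matrix V V ℝ} {N : ℕ} (hN : L ^ N = 0) :
    (1 - L)⁻¹ = ∑ k ∈ range N, L ^ k := by
  apply Matrix.inv_eq_right_inv
  rw [mul_neg_geom_sum, hN, sub_zero]

theorem inv_rec {L : Matrix V V ℝ} (hL : Acyc L) (u v : V) :
    (1 - L)⁻¹ u v = (1 : Matrix V V ℝ) u v + ∑ p, (1 - L)⁻¹ u p * L p v := by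
  obtain ⟨N, hN⟩ := exists_pow_zero hL
  have h1 : (1 - L) * (∑ k ∈ range N, L ^ k) = 1 := by rw [mul_neg_geom_sum, hN, sub_zero]
  have h2 : (∑ k ∈ range N, L ^ k) * (1 - L) = 1 := mul_eq_one_comm.1 h1
  have h3 : (1 - L)⁻¹ = 1 + (1 - L)⁻¹ * L := by
    rw [inv_eq hN]
    rw [mul_sub, mul_one] at h2
    rw [← h2]
    abel
  conv_lhs => rw [h3]
  rw [Matrix.add_apply, Matrix.mul_apply]

theorem inv_nonneg' {L : Matrix V V ℝ} (hL : Acyc L) (h0 : ∀ u v, 0 ≤ L u v) (u v : V) :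
    0 ≤ (1 - L)⁻¹ u v := by
  obtain ⟨N, hN⟩ := exists_pow_zero hL
  have h1 : ∀ k, ∀ u v, 0 ≤ (L ^ k) u v := by
    intro k
    induction k with
    | zero =>
      intro u v
      rw [pow_zero, Matrix.one_apply]
      split_ifs <;> norm_num
    | succ k ih =>
      intro u v
      rw [pow_succ, Matrix.mul_apply]
      exact Finset.sum_nonneg fun p _ => mul_nonneg (ih _ _) (h0 _ _)
  rw [inv_eq hN, Matrix.sum_apply]
  exact Finset.sum_nonneg fun k _ => h1 k u v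

theorem inv_pos' {L : Matrix V V ℝ} (hL : Acyc L) (h0 : ∀ u v, 0 ≤ L u v) {u v : V}
    (h : ReflTransGen (fun a b => 0 < L a b) u v) : 0 < (1 - L)⁻¹ u v := by
  induction h with
  | refl =>
    rw [inv_rec hL, Matrix.one_apply_eq]
    have : 0 ≤ ∑ p, (1 - L)⁻¹ u p * L p u :=
      Finset.sum_nonneg fun p _ => mul_nonneg (inv_nonneg' hL h0 _ _) (h0 _ _)
    linarith
  | @tail p w hp hpw ih =>
    rw [inv_rec hL]
    have h1 : (1 - L)⁻¹ u p * L p w ≤ ∑ p, (1 - L)⁻¹ u p * L p w :=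
      Finset.single_le_sum (f := fun p => (1 - L)⁻¹ u p * L p w)
        (fun p _ => mul_nonneg (inv_nonneg' hL h0 _ _) (h0 _ _)) (Finset.mem_univ p)
    have h2 : 0 < (1 - L)⁻¹ u p * L p w := mul_pos ih hpw
    have h3 : (0 : ℝ) ≤ (1 : Matrix V V ℝ) u w := by
      rw [Matrix.one_apply]
      split_ifs <;> norm_num
    linarith

theorem inv_zero {L : Matrix V V ℝ} (hL : Acyc L) {u v : V}
    (h : ¬ ReflTransGen (fun a b => L a b ≠ 0) u v) : (1 - L)⁻¹ u v = 0 := by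
  obtain ⟨N, hN⟩ := exists_pow_zero hL
  have h1 : ∀ k, ∀ w, (L ^ k) u w ≠ 0 → ReflTransGen (fun a b => L a b ≠ 0) u w := by
    intro k
    induction k with
    | zero =>
      intro w hw
      rw [pow_zero, Matrix.one_apply] at hw
      have : u = w := by by_contra h'; exact hw (if_neg h')
      rw [this]
    | succ k ih =>
      intro w hw
      rw [pow_succ, Matrix.mul_apply] at hw
      obtain ⟨p, -, hp⟩ := Finset.exists_ne_zero_of_sum_ne_zero hw
      exact (ih p (left_ne_zero_of_mul hp)).tail (right_ne_zero_of_mul hp)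
  rw [inv_eq hN, Matrix.sum_apply]
  refine Finset.sum_eq_zero fun k _ => ?_
  by_contra h'
  exact h (h1 k v h')

theorem inv_diag {L : Matrix V V ℝ} (hL : Acyc L) (v : V) : (1 - L)⁻¹ v v = 1 := by
  obtain ⟨b, hb⟩ := id hL
  rw [inv_rec hL, Matrix.one_apply_eq]
  have h1 : ∑ p, (1 - L)⁻¹ v p * L p v = 0 := by
    refine Finset.sum_eq_zero fun p hp => ?_
    by_contra h
    have h2 : ReflTransGen (fun a b => L a b ≠ 0) v p := by
      by_contra h'
      exact (left_ne_zero_of_mul h) (inv_zero hL h')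
    have h3 : b v ≤ b p := by
      clear h hp
      induction h2 with
      | refl => exact le_rfl
      | tail _ h4 ih => exact ih.trans (hb _ _ h4).le
    have h5 := hb _ _ (right_ne_zero_of_mul h)
    omega
  rw [h1, add_zero]

/-- The local Markov property. -/
theorem local_markov {L : Matrix V V ℝ} (hL : Acyc L) (ω : V → ℝ) {w j : V}
    (h : (1 - L)⁻¹ j w = 0) :
    covMat L ω w j = ∑ p, covMat L ω w p * L p j := by
  rw [covMat_apply]
  have h1 : ∀ t, ω t * ((1 - L)⁻¹ t w * (1 - L)⁻¹ t j) =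
      ω t * ((1 - L)⁻¹ t w * (1 : Matrix V V ℝ) t j) +
        ∑ p, ω t * ((1 - L)⁻¹ t w * (1 - L)⁻¹ t p) * L p j := by
    intro t
    rw [inv_rec hL t j, mul_add, mul_add, Finset.mul_sum, Finset.mul_sum]
    congr 1
    exact Finset.sum_congr rfl fun p _ => by ring
  rw [Finset.sum_congr rfl fun t _ => h1 t, Finset.sum_add_distrib, Finset.sum_comm]
  have h2 : ∑ t, ω t * ((1 - L)⁻¹ t w * (1 : Matrix V V ℝ) t j) = 0 := by
    refine Finset.sum_eq_zero fun t _ => ?_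
    by_cases ht : t = j
    · rw [ht, h]; ring
    · rw [Matrix.one_apply_ne ht]; ring
  rw [h2, zero_add]
  refine Finset.sum_congr rfl fun p _ => ?_
  rw [covMat_apply, Finset.sum_mul]

/-- bounds for scaled matrices -/
theorem inv_bound {A : Matrix V V ℝ} (hA : Acyc A) (h0 : ∀ u v, 0 ≤ A u v) :
    ∃ K : ℝ, 0 ≤ K ∧ ∀ ε : ℝ, 0 ≤ ε → ε ≤ 1 →
      (∀ u v, (1 - ε • A)⁻¹ u v ≤ K) ∧ ∀ u v, u ≠ v → (1 - ε • A)⁻¹ u v ≤ ε * K := by
  obtain ⟨N, hN⟩ := exists_pow_zero hA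
  have h1 : ∀ k, ∀ u v, 0 ≤ (A ^ k) u v := by
    intro k
    induction k with
    | zero =>
      intro u v
      rw [pow_zero, Matrix.one_apply]
      split_ifs <;> norm_num
    | succ k ih =>
      intro u v
      rw [pow_succ, Matrix.mul_apply]
      exact Finset.sum_nonneg fun p _ => mul_nonneg (ih _ _) (h0 _ _)
  refine ⟨∑ u, ∑ v, ∑ k ∈ range N, (A ^ k) u v,
    Finset.sum_nonneg fun u _ => Finset.sum_nonneg fun v _ => Finset.sum_nonneg fun k _ => h1 k u v,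
    fun ε he0 he1 => ?_⟩
  have hN' : (ε • A) ^ N = 0 := by rw [smul_pow, hN, smul_zero]
  have h2 : ∀ u v, ∑ k ∈ range N, (A ^ k) u v ≤ ∑ u, ∑ v, ∑ k ∈ range N, (A ^ k) u v := by
    intro u v
    have h3 : ∑ k ∈ range N, (A ^ k) u v ≤ ∑ v, ∑ k ∈ range N, (A ^ k) u v :=
      Finset.single_le_sum (f := fun v => ∑ k ∈ range N, (A ^ k) u v)
        (fun v _ => Finset.sum_nonneg fun k _ => h1 k u v) (Finset.mem_univ v)
    have h4 : ∑ v, ∑ k ∈ range N, (A ^ k) u v ≤ ∑ u, ∑ v, ∑ k ∈ range N, (A ^ k) u v :=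
      Finset.single_le_sum (f := fun u => ∑ v, ∑ k ∈ range N, (A ^ k) u v)
        (fun u _ => Finset.sum_nonneg fun v _ => Finset.sum_nonneg fun k _ => h1 k u v)
        (Finset.mem_univ u)
    exact h3.trans h4
  have h5 : ∀ u v, (1 - ε • A)⁻¹ u v = ∑ k ∈ range N, ε ^ k * (A ^ k) u v := by
    intro u v
    rw [inv_eq hN', Matrix.sum_apply]
    refine Finset.sum_congr rfl fun k _ => ?_
    rw [smul_pow, Matrix.smul_apply, smul_eq_mul]
  constructor
  · intro u v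
    rw [h5]
    refine le_trans (Finset.sum_le_sum fun k _ => ?_) (h2 u v)
    exact mul_le_of_le_one_left (h1 k u v) (pow_le_one₀ he0 he1)
  · intro u v huv
    rw [h5]
    refine le_trans (Finset.sum_le_sum fun k _ => ?_)
      (le_trans (le_of_eq (Finset.mul_sum _ _ _).symm) (mul_le_mul_of_nonneg_left (h2 u v) he0))
    rcases k with _ | k
    · have h6 : (A ^ 0) u v = 0 := by rw [pow_zero]; exact Matrix.one_apply_ne huv
      rw [h6]; simp
    · refine mul_le_mul_of_nonneg_right ?_ (h1 _ u v)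
      rw [pow_succ]
      exact mul_le_of_le_one_left he0 (pow_le_one₀ he0 he1)

theorem cov_nonneg {L : Matrix V V ℝ} (hL : Acyc L) (h0 : ∀ u v, 0 ≤ L u v) (u v : V) :
    0 ≤ covMat L 1 u v := by
  rw [covMat_apply]
  exact Finset.sum_nonneg fun t _ => mul_nonneg zero_le_one
    (mul_nonneg (inv_nonneg' hL h0 _ _) (inv_nonneg' hL h0 _ _))

theorem cov_pos {L : Matrix V V ℝ} (hL : Acyc L) (h0 : ∀ u v, 0 ≤ L u v) {t u v : V}
    (hu : ReflTransGen (fun a b => 0 < L a b) t u) (hv : ReflTransGen (fun a b => 0 < L a b) t v) :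
    0 < covMat L 1 u v := by
  rw [covMat_apply]
  have h1 : (1 : V → ℝ) t * ((1 - L)⁻¹ t u * (1 - L)⁻¹ t v) ≤
      ∑ t, (1 : V → ℝ) t * ((1 - L)⁻¹ t u * (1 - L)⁻¹ t v) :=
    Finset.single_le_sum (f := fun t => (1 : V → ℝ) t * ((1 - L)⁻¹ t u * (1 - L)⁻¹ t v))
      (fun t _ => mul_nonneg zero_le_one
        (mul_nonneg (inv_nonneg' hL h0 _ _) (inv_nonneg' hL h0 _ _))) (Finset.mem_univ t)
  refine lt_of_lt_of_le ?_ h1
  exact mul_pos one_pos (mul_pos (inv_pos' hL h0 hu) (inv_pos' hL h0 hv))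

theorem cov_ne_zero {L : Matrix V V ℝ} (hL : Acyc L) {ω : V → ℝ} {u v : V}
    (h : covMat L ω u v ≠ 0) : ∃ t, ReflTransGen (fun a b => L a b ≠ 0) t u ∧
      ReflTransGen (fun a b => L a b ≠ 0) t v := by
  rw [covMat_apply] at h
  obtain ⟨t, -, ht⟩ := Finset.exists_ne_zero_of_sum_ne_zero h
  refine ⟨t, ?_, ?_⟩
  · by_contra h'
    exact (left_ne_zero_of_mul (right_ne_zero_of_mul ht)) (inv_zero hL h')
  · by_contra h'
    exact (right_ne_zero_of_mul (right_ne_zero_of_mul ht)) (inv_zero hL h')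

theorem cov_diag_pos {L : Matrix V V ℝ} (hL : Acyc L) {ω : V → ℝ} (hω : ∀ v, 0 < ω v) (v : V) :
    0 < covMat L ω v v := by
  rw [covMat_apply]
  have h1 : ω v * ((1 - L)⁻¹ v v * (1 - L)⁻¹ v v) ≤ ∑ t, ω t * ((1 - L)⁻¹ t v * (1 - L)⁻¹ t v) :=
    Finset.single_le_sum (f := fun t => ω t * ((1 - L)⁻¹ t v * (1 - L)⁻¹ t v))
      (fun t _ => mul_nonneg (hω t).le (mul_self_nonneg _)) (Finset.mem_univ v)
  refine lt_of_lt_of_le ?_ h1
  rw [inv_diag hL]
  simpa using hω v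

theorem cov_diag_ge {L : Matrix V V ℝ} (hL : Acyc L) (v : V) :
    1 ≤ covMat L 1 v v := by
  rw [covMat_apply]
  have h1 : (1 : V → ℝ) v * ((1 - L)⁻¹ v v * (1 - L)⁻¹ v v) ≤
      ∑ t, (1 : V → ℝ) t * ((1 - L)⁻¹ t v * (1 - L)⁻¹ t v) :=
    Finset.single_le_sum (f := fun t => (1 : V → ℝ) t * ((1 - L)⁻¹ t v * (1 - L)⁻¹ t v))
      (fun t _ => mul_nonneg zero_le_one (mul_self_nonneg _)) (Finset.mem_univ v)
  refine le_trans ?_ h1
  rw [inv_diag hL]
  simp

theorem cov_bound {A : Matrix V V ℝ} (hA : Acyc A) (h0 : ∀ u v, 0 ≤ A u v) :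
    ∃ K : ℝ, 1 ≤ K ∧ ∀ ε : ℝ, 0 < ε → ε ≤ 1 →
      (∀ u v, covMat (ε • A) 1 u v ≤ K) ∧ ∀ u v, u ≠ v → covMat (ε • A) 1 u v ≤ ε * K := by
  obtain ⟨K, hK, h⟩ := inv_bound hA h0
  refine ⟨max 1 (∑ _t : V, K * K), le_max_left _ _, fun ε he0 he1 => ?_⟩
  have hA' : Acyc (ε • A) := by
    obtain ⟨b, hb⟩ := hA
    refine ⟨b, fun u v huv => hb u v fun h' => huv ?_⟩
    rw [Matrix.smul_apply, h', smul_zero]
  have h0' : ∀ u v, 0 ≤ (ε • A) u v := fun u v => mul_nonneg he0.le (h0 u v)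
  obtain ⟨h1, h2⟩ := h ε he0.le he1
  have hn := inv_nonneg' hA' h0'
  constructor
  · intro u v
    refine le_trans ?_ (le_max_right _ _)
    rw [covMat_apply]
    refine Finset.sum_le_sum fun t _ => ?_
    rw [Pi.one_apply, one_mul]
    exact mul_le_mul (h1 t u) (h1 t v) (hn _ _) hK
  · intro u v huv
    refine le_trans ?_ (mul_le_mul_of_nonneg_left (le_max_right _ _) he0.le)
    rw [covMat_apply, Finset.mul_sum]
    refine Finset.sum_le_sum fun t _ => ?_
    rw [Pi.one_apply, one_mul]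
    by_cases htu : t = u
    · have h3 : t ≠ v := by rw [htu]; exact huv
      calc (1 - ε • A)⁻¹ t u * (1 - ε • A)⁻¹ t v ≤ K * (ε * K) :=
            mul_le_mul (h1 t u) (h2 t v h3) (hn _ _) hK
        _ = ε * (K * K) := by ring
    · calc (1 - ε • A)⁻¹ t u * (1 - ε • A)⁻¹ t v ≤ (ε * K) * K :=
            mul_le_mul (h2 t u htu) (h1 t v) (hn _ _) (mul_nonneg he0.le hK)
        _ = ε * (K * K) := by ring

end Pool.Agent.V11330.TG
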