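import Mathlib
import Pool.Agent.V11330.TG.Bin
import Pool.Agent.V11330.TG.Model

/-!
# The vanishing ideal of a Gaussian DAG model with the class property
-/

set_option autoImplicit false

namespace Pool.Agent.V11330.TG

open Matrix Relation Finset MvPolynomial

theorem rmono {α : Type} {r p : α → α → Prop} (h : ∀ a b, r a b → p a b) {a b : α}
    (hab : ReflTransGen r a b) : ReflTransGen p a b := by
  induction hab with
  | refl => exact ReflTransGen.refl
  | tail _ h2 ih => exact ih.tail (h _ _ h2)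

/-- the index set of the variables `σ_ij`, `i ≤ j` -/
abbrev Idx (n : ℕ) := {p : Fin n × Fin n // p.1 ≤ p.2}

/-- the variable `σ_uv = σ_vu` -/
def sg {n : ℕ} (u v : Fin n) : Idx n :=
  if h : u ≤ v then ⟨(u, v), h⟩ else ⟨(v, u), le_of_not_ge h⟩

/-- parameters of the model -/
def Par {n : ℕ} (E : Fin n → Fin n → Prop) (L : Matrix (Fin n) (Fin n) ℝ) (ω : Fin n → ℝ) : Prop :=
  (∀ u v, ¬ E u v → L u v = 0) ∧ ∀ v, 0 < ω v

/-- the point of the model with coordinates in `K` -/
noncomputable def pt {n : ℕ} (K : Type) [RCLike K] (L : Matrix (Fin n) (Fin n) ℝ) (ω : Fin n → ℝ) :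
    Idx n → K := fun p => ((covMat L ω p.1.1 p.1.2 : ℝ) : K)

theorem pt_sg {n : ℕ} (K : Type) [RCLike K] (L : Matrix (Fin n) (Fin n) ℝ) (ω : Fin n → ℝ)
    (u v : Fin n) : pt K L ω (sg u v) = ((covMat L ω u v : ℝ) : K) := by
  unfold pt sg
  split_ifs
  · rfl
  · rw [covMat_symm]

/-- The vanishing ideal. -/
def vanIdeal {n : ℕ} (K : Type) [RCLike K] (E : Fin n → Fin n → Prop) :
    Ideal (MvPolynomial (Idx n) K) where
  carrier := {f | ∀ L ω, Par E L ω → MvPolynomial.eval (pt K L ω) f = 0}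
  add_mem' := by
    intro a b ha hb L ω h
    rw [map_add, ha L ω h, hb L ω h, add_zero]
  zero_mem' := by
    intro L ω _
    exact map_zero _
  smul_mem' := by
    intro c x hx L ω h
    rw [smul_eq_mul, map_mul, hx L ω h, mul_zero]

theorem mem_vanIdeal {n : ℕ} {K : Type} [RCLike K] {E : Fin n → Fin n → Prop}
    {f : MvPolynomial (Idx n) K} :
    f ∈ vanIdeal K E ↔ ∀ L ω, Par E L ω → MvPolynomial.eval (pt K L ω) f = 0 := Iff.rfl

section

variable {n : ℕ} {E : Fin n → Fin n → Prop} (i j : Fin n)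

/-- rows -/
def rw' (E : Fin n → Fin n → Prop) (i j : Fin n) (x : Option {p : Fin n // E p j}) : Fin n :=
  x.elim i fun p => p.1

/-- columns -/
def cl' (E : Fin n → Fin n → Prop) (j : Fin n) (x : Option {p : Fin n // E p j}) : Fin n :=
  x.elim j fun p => p.1

theorem not_reach_of_edge (hE : ∀ v, ¬ TransGen E v v) {p j : Fin n} (h : E p j) :
    ¬ ReflTransGen E j p := by
  intro h'
  exact hE j (TransGen.tail' h' h)

open Classical in
theorem markov_par (hE : ∀ v, ¬ TransGen E v v) {L : Matrix (Fin n) (Fin n) ℝ} {ω : Fin n → ℝ}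
    (hp : Par E L ω) {w j : Fin n} (hw : ¬ ReflTransGen E j w) :
    covMat L ω w j = ∑ p : {p : Fin n // E p j}, covMat L ω w p.1 * L p.1 j := by
  have hL : Acyc L := acyc_of hE hp.1
  have h1 : (1 - L)⁻¹ j w = 0 := by
    apply inv_zero hL
    intro h
    apply hw
    refine rmono ?_ h
    intro a b hab
    by_contra h'
    exact hab (hp.1 a b h')
  rw [local_markov hL ω h1]
  rw [← Finset.sum_subtype (s := univ.filter fun p => E p j) (p := fun p => E p j) (by simp)
    (fun p => covMat L ω w p * L p j)]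
  rw [Finset.sum_filter]
  refine Finset.sum_congr rfl fun p _ => ?_
  split_ifs with h
  · rfl
  · rw [hp.1 p j h, mul_zero]

/-- the submatrix of the generic covariance matrix -/
noncomputable def MM (K : Type) [RCLike K] (E : Fin n → Fin n → Prop) (i j : Fin n) :
    Matrix (Option {p : Fin n // E p j}) (Option {p : Fin n // E p j}) (MvPolynomial (Idx n) K) :=
  Matrix.of fun x y => X (sg (rw' E i j x) (cl' E j y))

open Classical in
/-- the determinant is in the vanishing ideal -/
theorem det_mem (K : Type) [RCLike K] (hE : ∀ v, ¬ TransGen E v v) (hji : ¬ ReflTransGen E j i) :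
    (MM K E i j).det ∈ vanIdeal K E := by
  rw [mem_vanIdeal]
  intro L ω hp
  rw [RingHom.map_det]
  rw [← Matrix.exists_mulVec_eq_zero_iff]
  refine ⟨fun y => y.elim 1 fun p => -((L p.1 j : ℝ) : K), ?_, ?_⟩
  · intro h
    have := congrFun h none
    simp at this
  · ext x
    rw [Matrix.mulVec, dotProduct, Fintype.sum_option]
    have hx : ¬ ReflTransGen E j (rw' E i j x) := by
      rcases x with _ | p
      · exact hji
      · exact not_reach_of_edge hE p.2
    have h1 : ∀ y, (eval (pt K L ω)).mapMatrix (MM K E i j) x y =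
        ((covMat L ω (rw' E i j x) (cl' E j y) : ℝ) : K) := by
      intro y
      rw [RingHom.mapMatrix_apply, Matrix.map_apply, MM, Matrix.of_apply, eval_X, pt_sg]
    simp only [h1]
    change ((covMat L ω (rw' E i j x) j : ℝ) : K) * 1 +
      ∑ p : {p : Fin n // E p j}, ((covMat L ω (rw' E i j x) p.1 : ℝ) : K) * -((L p.1 j : ℝ) : K) = 0
    rw [markov_par hE hp hx, mul_one, RCLike.ofReal_sum, ← Finset.sum_add_distrib]
    refine Finset.sum_eq_zero fun p _ => ?_
    rw [RCLike.ofReal_mul]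
    ring

open Classical in
/-- exponents -/
noncomputable def uu (E : Fin n → Fin n → Prop) (i j : Fin n)
    (π : Equiv.Perm (Option {p : Fin n // E p j})) : Idx n →₀ ℕ :=
  ∑ x, Finsupp.single (sg (rw' E i j (π x)) (cl' E j x)) 1

open Classical in
theorem uu_mon (K : Type) [RCLike K] (π : Equiv.Perm (Option {p : Fin n // E p j})) (a : K) :
    monomial (uu E i j π) a = C a * ∏ x, X (sg (rw' E i j (π x)) (cl' E j x)) := by
  have h1 : (monomial (uu E i j π) (1 : K)) = ∏ x, X (sg (rw' E i j (π x)) (cl' E j x)) := by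
    unfold uu
    rw [monomial_sum_one]
    rfl
  rw [← h1, C_mul_monomial, mul_one]

open Classical in
theorem eval_uu {K : Type} [RCLike K] (π : Equiv.Perm (Option {p : Fin n // E p j})) (a : K)
    (L : Matrix (Fin n) (Fin n) ℝ) (ω : Fin n → ℝ) :
    eval (pt K L ω) (monomial (uu E i j π) a) =
      a * ((∏ x, covMat L ω (rw' E i j (π x)) (cl' E j x) : ℝ) : K) := by
  rw [uu_mon, map_mul, eval_C, map_prod]
  congr 1
  rw [RCLike.ofReal_prod]
  refine Finset.prod_congr rfl fun x _ => ?_
  rw [eval_X, pt_sg]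

/-- the adjacency matrix of a subgraph -/
noncomputable def adj (F : Fin n → Fin n → Prop) : Matrix (Fin n) (Fin n) ℝ :=
  open Classical in fun u v => if F u v then 1 else 0

theorem adj_nonneg (F : Fin n → Fin n → Prop) (u v : Fin n) : 0 ≤ adj F u v := by
  unfold adj
  split_ifs <;> norm_num

theorem adj_pos {F : Fin n → Fin n → Prop} {u v : Fin n} (h : F u v) : 0 < adj F u v := by
  unfold adj
  rw [if_pos h]
  norm_num

theorem adj_ne {F : Fin n → Fin n → Prop} {u v : Fin n} (h : adj F u v ≠ 0) : F u v := by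
  unfold adj at h
  by_contra h'
  rw [if_neg h'] at h
  exact h rfl

theorem adj_par {F : Fin n → Fin n → Prop} (hF : ∀ u v, F u v → E u v) : Par E (adj F) 1 := by
  refine ⟨fun u v h => ?_, fun v => one_pos⟩
  unfold adj
  rw [if_neg fun h' => h (hF u v h')]

theorem adj_acyc (hE : ∀ v, ¬ TransGen E v v) {F : Fin n → Fin n → Prop}
    (hF : ∀ u v, F u v → E u v) : Acyc (adj F) :=
  acyc_of hE (adj_par hF).1

theorem adj_reach {F : Fin n → Fin n → Prop} {u v : Fin n} (h : ReflTransGen F u v) :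
    ReflTransGen (fun a b => 0 < adj F a b) u v :=
  rmono (fun _ _ hab => adj_pos hab) h

open Classical in
/-- A nontrivial relation of monomials. -/
theorem exists_rel {K : Type} [RCLike K] (hE : ∀ v, ¬ TransGen E v v) (hji : ¬ ReflTransGen E j i)
    (hcp : ClassProp (vanIdeal K E)) (htrek : ∃ t, ReflTransGen E t i ∧ ReflTransGen E t j) :
    ∃ π : Equiv.Perm (Option {p : Fin n // E p j}), π ≠ 1 ∧ ∃ k : K, k ≠ 0 ∧
      ∀ L ω, Par E L ω → ((∏ x, covMat L ω (rw' E i j x) (cl' E j x) : ℝ) : K) =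
        k * ((∏ x, covMat L ω (rw' E i j (π x)) (cl' E j x) : ℝ) : K) := by
  have h1 := det_mem i j K hE hji
  rw [Matrix.det_apply] at h1
  have h2 : ∀ π : Equiv.Perm (Option {p : Fin n // E p j}),
      Equiv.Perm.sign π • ∏ x, MM K E i j (π x) x =
        monomial (uu E i j π) ((((Equiv.Perm.sign π : ℤˣ) : ℤ) : K)) := by
    intro π
    rw [uu_mon]
    simp only [MM, Matrix.of_apply]
    rcases Int.units_eq_one_or (Equiv.Perm.sign π) with h | h
    · rw [h, one_smul]; simp
    · rw [h]; simp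
  rw [Finset.sum_congr rfl fun π _ => h2 π] at h1
  rcases hcp _ univ _ _ h1 1 (mem_univ _) (by simp) with h3 | ⟨π, -, hπ, k, hk, h3⟩
  · exfalso
    have hA := adj_acyc hE (F := E) fun _ _ h => h
    have h4 := h3 (adj E) 1 (adj_par fun _ _ h => h)
    rw [eval_uu, one_mul] at h4
    have h5 : (0 : ℝ) < ∏ x, covMat (adj E) 1 (rw' E i j ((1 : Equiv.Perm (Option {p : Fin n // E p j})) x)) (cl' E j x) := by
      refine Finset.prod_pos fun x _ => ?_
      rcases x with _ | p
      · obtain ⟨t, ht1, ht2⟩ := htrek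
        exact cov_pos hA (adj_nonneg E) (adj_reach ht1) (adj_reach ht2)
      · exact cov_diag_pos hA (fun _ => one_pos) p.1
    have h6 : ((∏ x, covMat (adj E) 1 (rw' E i j ((1 : Equiv.Perm (Option {p : Fin n // E p j})) x)) (cl' E j x) : ℝ) : K) = 0 := h4
    rw [RCLike.ofReal_eq_zero] at h6
    linarith
  · refine ⟨π, hπ, k, hk, fun L ω hp => ?_⟩
    have h4 := h3 L ω hp
    rw [map_sub, eval_uu, eval_uu, one_mul, sub_eq_zero] at h4
    exact h4

theorem prod_le_subset {ι : Type} [Fintype ι] [DecidableEq ι] (f : ι → ℝ) (K : ℝ) (hK : 1 ≤ K)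
    (h0 : ∀ x, 0 ≤ f x) (h1 : ∀ x, f x ≤ K) (T : Finset ι) :
    ∏ x, f x ≤ (∏ x ∈ T, f x) * K ^ Fintype.card ι := by
  rw [← Finset.prod_mul_prod_compl T f]
  refine mul_le_mul_of_nonneg_left ?_ (Finset.prod_nonneg fun x _ => h0 x)
  calc ∏ x ∈ Tᶜ, f x ≤ ∏ _x ∈ Tᶜ, K := Finset.prod_le_prod (fun x _ => h0 x) fun x _ => h1 x
    _ = K ^ (Tᶜ).card := by rw [Finset.prod_const]
    _ ≤ K ^ Fintype.card ι := pow_le_pow_right₀ hK (Finset.card_le_univ _)

open Classical in
/-- The relation comes from a transposition. -/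
theorem perm_swap {K : Type} [RCLike K] (hE : ∀ v, ¬ TransGen E v v) (hji : ¬ ReflTransGen E j i)
    (hij : ¬ E i j) (htrek : ∃ t, ReflTransGen E t i ∧ ReflTransGen E t j)
    {π : Equiv.Perm (Option {p : Fin n // E p j})} (hπ : π ≠ 1) {k : K} (hk : k ≠ 0)
    (hrel : ∀ L ω, Par E L ω → ((∏ x, covMat L ω (rw' E i j x) (cl' E j x) : ℝ) : K) =
        k * ((∏ x, covMat L ω (rw' E i j (π x)) (cl' E j x) : ℝ) : K)) :
    ∃ c : {p : Fin n // E p j}, π = Equiv.swap none (some c) := by
  by_contra hcon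
  push Not at hcon
  have hA := adj_acyc hE (F := E) fun _ _ h => h
  obtain ⟨K0, hK0, hb⟩ := cov_bound hA (adj_nonneg E)
  set N := Fintype.card (Option {p : Fin n // E p j}) with hN
  -- the scaled model
  have hpar : ∀ ε : ℝ, Par E (ε • adj E) 1 := by
    intro ε
    refine ⟨fun u v h => ?_, fun _ => one_pos⟩
    rw [Matrix.smul_apply, (adj_par (E := E) (F := E) fun _ _ h => h).1 u v h, smul_zero]
  have hac : ∀ ε : ℝ, Acyc (ε • adj E) := fun ε => acyc_of hE (hpar ε).1
  have hnn : ∀ ε : ℝ, 0 ≤ ε → ∀ u v, 0 ≤ (ε • adj E) u v := fun ε hε u v =>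
    mul_nonneg hε (adj_nonneg E u v)
  have hneE : ∀ {p q : Fin n}, E p q → p ≠ q := by
    rintro p q h rfl
    exact hE p (TransGen.single h)
  -- the main estimate
  have hmain : ∀ ε : ℝ, 0 < ε → ε ≤ 1 →
      ∏ x, covMat (ε • adj E) 1 (rw' E i j (π x)) (cl' E j x) ≤
        covMat (ε • adj E) 1 i j * (ε * (K0 ^ 2 * K0 ^ N)) := by
    intro ε he0 he1
    obtain ⟨hb1, hb2⟩ := hb ε he0 he1
    have h0 : ∀ u v, 0 ≤ covMat (ε • adj E) 1 u v := cov_nonneg (hac ε) (hnn ε he0.le)
    set f : Option {p : Fin n // E p j} → ℝ :=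
      fun x => covMat (ε • adj E) 1 (rw' E i j (π x)) (cl' E j x) with hf
    have hKpos : (0 : ℝ) ≤ K0 := by linarith
    by_cases hnone : π none = none
    · -- a second moved point
      obtain ⟨x0, hx0⟩ : ∃ x0, π x0 ≠ x0 := by
        by_contra h
        push Not at h
        exact hπ (Equiv.ext h)
      have hx0n : x0 ≠ none := by rintro rfl; exact hx0 hnone
      obtain ⟨c0, rfl⟩ := Option.ne_none_iff_exists'.1 hx0n
      have hπn : π (some c0) ≠ none := by
        intro h
        exact hx0n (π.injective (h.trans hnone.symm))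
      obtain ⟨c1, hc1⟩ := Option.ne_none_iff_exists'.1 hπn
      have hc : c1 ≠ c0 := by
        rintro rfl
        exact hx0 hc1
      have h1 := prod_le_subset f K0 hK0 (fun x => h0 _ _) (fun x => hb1 _ _) {none, some c0}
      rw [Finset.prod_pair (by simp)] at h1
      refine h1.trans ?_
      have h2 : f none = covMat (ε • adj E) 1 i j := by
        simp only [hf, hnone]; rfl
      have h3 : f (some c0) ≤ ε * K0 := by
        simp only [hf, hc1]
        exact hb2 c1.1 c0.1 fun h => hc (Subtype.ext h)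
      rw [h2]
      have h4 : ε * K0 ≤ ε * K0 ^ 2 :=
        mul_le_mul_of_nonneg_left (by nlinarith) he0.le
      calc covMat (ε • adj E) 1 i j * f (some c0) * K0 ^ N ≤
            covMat (ε • adj E) 1 i j * (ε * K0 ^ 2) * K0 ^ N := by
            refine mul_le_mul_of_nonneg_right ?_ (pow_nonneg hKpos _)
            exact mul_le_mul_of_nonneg_left (h3.trans h4) (h0 _ _)
        _ = _ := by ring
    · obtain ⟨c0, hc0⟩ := Option.ne_none_iff_exists'.1 hnone
      have hinv : π.symm none ≠ none := by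
        intro h
        apply hnone
        rw [← h, Equiv.apply_symm_apply, h]
      obtain ⟨c1, hc1'⟩ := Option.ne_none_iff_exists'.1 hinv
      have hc1 : π (some c1) = none := by rw [← hc1', Equiv.apply_symm_apply]
      -- a third moved point
      obtain ⟨x2, hx2n, hx2c, hx2⟩ : ∃ x2, x2 ≠ none ∧ x2 ≠ some c1 ∧ π x2 ≠ x2 := by
        by_contra h
        push Not at h
        have hcc : c0 = c1 := by
          by_contra hne
          have h5 := h (some c0) (by simp) (by simpa using hne)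
          have h6 := π.injective (h5.trans hc0.symm)
          simp at h6
        apply hcon c0
        ext1 x
        by_cases hx : x = none
        · rw [hx, hc0, Equiv.swap_apply_left]
        by_cases hx' : x = some c0
        · rw [hx', Equiv.swap_apply_right, hcc, hc1]
        · rw [Equiv.swap_apply_of_ne_of_ne hx hx', h x hx (by rw [← hcc]; exact hx')]
      obtain ⟨c2, rfl⟩ := Option.ne_none_iff_exists'.1 hx2n
      have hπ2 : π (some c2) ≠ none := by
        intro h
        exact hx2c (π.injective (h.trans hc1.symm))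
      obtain ⟨c3, hc3⟩ := Option.ne_none_iff_exists'.1 hπ2
      have hc : c3 ≠ c2 := by
        rintro rfl
        exact hx2 hc3
      have h1 := prod_le_subset f K0 hK0 (fun x => h0 _ _) (fun x => hb1 _ _)
        {none, some c1, some c2}
      rw [Finset.prod_insert (by simp), Finset.prod_pair (fun h => hx2c h.symm)] at h1
      refine h1.trans ?_
      have h2 : f none ≤ ε * K0 := by
        simp only [hf, hc0]
        exact hb2 c0.1 j (hneE c0.2)
      have h3 : ε * f (some c1) ≤ covMat (ε • adj E) 1 i j := by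
        simp only [hf, hc1]
        rw [markov_par hE (hpar ε) hji]
        have h5 : covMat (ε • adj E) 1 i c1.1 * (ε • adj E) c1.1 j ≤
            ∑ p : {p : Fin n // E p j}, covMat (ε • adj E) 1 i p.1 * (ε • adj E) p.1 j :=
          Finset.single_le_sum
            (f := fun p : {p : Fin n // E p j} => covMat (ε • adj E) 1 i p.1 * (ε • adj E) p.1 j)
            (fun p _ => mul_nonneg (h0 _ _) (hnn ε he0.le _ _)) (Finset.mem_univ c1)
        refine le_trans (le_of_eq ?_) h5
        have h6 : adj E c1.1 j = 1 := by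
          unfold adj
          rw [if_pos c1.2]
        rw [Matrix.smul_apply, h6, smul_eq_mul, mul_one, mul_comm]
        rfl
      have h4 : f (some c2) ≤ ε * K0 := by
        simp only [hf, hc3]
        exact hb2 c3.1 c2.1 fun h => hc (Subtype.ext h)
      have hf0 : ∀ x, 0 ≤ f x := fun x => h0 _ _
      calc f none * (f (some c1) * f (some c2)) * K0 ^ N ≤
            (ε * K0) * (f (some c1) * (ε * K0)) * K0 ^ N := by
            refine mul_le_mul_of_nonneg_right ?_ (pow_nonneg hKpos _)
            refine mul_le_mul h2 ?_ (mul_nonneg (hf0 _) (hf0 _)) (mul_nonneg he0.le hKpos)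
            exact mul_le_mul_of_nonneg_left h4 (hf0 _)
        _ = (ε * f (some c1)) * (ε * (K0 ^ 2 * K0 ^ N)) := by ring
        _ ≤ covMat (ε • adj E) 1 i j * (ε * (K0 ^ 2 * K0 ^ N)) :=
            mul_le_mul_of_nonneg_right h3 (by positivity)
  -- conclusion
  have hkn : 0 < ‖k‖ := norm_pos_iff.2 hk
  have hfin : ∀ ε : ℝ, 0 < ε → ε ≤ 1 → 1 ≤ ‖k‖ * (ε * (K0 ^ 2 * K0 ^ N)) := by
    intro ε he0 he1
    have h0 : ∀ u v, 0 ≤ covMat (ε • adj E) 1 u v := cov_nonneg (hac ε) (hnn ε he0.le)
    have h1 := congrArg norm (hrel _ _ (hpar ε))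
    rw [norm_mul, RCLike.norm_ofReal, RCLike.norm_ofReal,
      abs_of_nonneg (Finset.prod_nonneg fun x _ => h0 _ _),
      abs_of_nonneg (Finset.prod_nonneg fun x _ => h0 _ _)] at h1
    have h2 : covMat (ε • adj E) 1 i j ≤ ∏ x, covMat (ε • adj E) 1 (rw' E i j x) (cl' E j x) := by
      rw [Fintype.prod_option]
      change covMat (ε • adj E) 1 i j ≤ covMat (ε • adj E) 1 i j *
        ∏ p : {p : Fin n // E p j}, covMat (ε • adj E) 1 p.1 p.1
      refine le_mul_of_one_le_right (h0 _ _) ?_
      calc (1 : ℝ) = ∏ _p : {p : Fin n // E p j}, (1 : ℝ) := by simp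
        _ ≤ _ := Finset.prod_le_prod (fun _ _ => zero_le_one) fun p _ => cov_diag_ge (hac ε) p.1
    have hpos : 0 < covMat (ε • adj E) 1 i j := by
      obtain ⟨t, ht1, ht2⟩ := htrek
      have hm : ∀ {a b}, ReflTransGen E a b → ReflTransGen (fun a b => 0 < (ε • adj E) a b) a b := by
        intro a b h
        refine rmono (fun x y hxy => ?_) h
        rw [Matrix.smul_apply]
        exact mul_pos he0 (adj_pos hxy)
      exact cov_pos (hac ε) (hnn ε he0.le) (hm ht1) (hm ht2)
    have h3 : covMat (ε • adj E) 1 i j ≤ ‖k‖ * (covMat (ε • adj E) 1 i j * (ε * (K0 ^ 2 * K0 ^ N))) := by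
      refine (h2.trans_eq h1).trans ?_
      exact mul_le_mul_of_nonneg_left (hmain ε he0 he1) hkn.le
    have h4 : covMat (ε • adj E) 1 i j * 1 ≤
        covMat (ε • adj E) 1 i j * (‖k‖ * (ε * (K0 ^ 2 * K0 ^ N))) := by
      rw [mul_one]
      refine h3.trans_eq ?_
      ring
    exact le_of_mul_le_mul_left h4 hpos
  set M := ‖k‖ * (K0 ^ 2 * K0 ^ N) with hM
  have hMpos : 0 < M := by
    have : 0 < K0 := by linarith
    positivity
  have h7 := hfin (min 1 (1 / (2 * M))) (lt_min one_pos (by positivity)) (min_le_left _ _)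
  have h8 : ‖k‖ * (min 1 (1 / (2 * M)) * (K0 ^ 2 * K0 ^ N)) ≤ 1 / (2 * M) * M := by
    calc ‖k‖ * (min 1 (1 / (2 * M)) * (K0 ^ 2 * K0 ^ N)) = min 1 (1 / (2 * M)) * M := by
          rw [hM]; ring
      _ ≤ _ := mul_le_mul_of_nonneg_right (min_le_right _ _) hMpos.le
  have h9 : 1 / (2 * M) * M = 1 / 2 := by field_simp
  linarith

open Classical in
/-- The quadratic relation. -/
theorem exists_quad {K : Type} [RCLike K] (hE : ∀ v, ¬ TransGen E v v) (hji : ¬ ReflTransGen E j i)
    (hij : ¬ E i j) (hcp : ClassProp (vanIdeal K E))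
    (htrek : ∃ t, ReflTransGen E t i ∧ ReflTransGen E t j) :
    ∃ c, E c j ∧ ∃ k : K, k ≠ 0 ∧ ∀ L ω, Par E L ω →
      ((covMat L ω i j * covMat L ω c c : ℝ) : K) =
        k * ((covMat L ω i c * covMat L ω c j : ℝ) : K) := by
  obtain ⟨π, hπ, k, hk, hrel⟩ := exists_rel i j hE hji hcp htrek
  obtain ⟨c, rfl⟩ := perm_swap i j hE hji hij htrek hπ hk hrel
  refine ⟨c.1, c.2, k, hk, fun L ω hp => ?_⟩
  have hL := acyc_of hE hp.1
  have h1 := hrel L ω hp
  set T : Finset (Option {p : Fin n // E p j}) := {none, some c} with hT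
  set P : ℝ := ∏ x ∈ Tᶜ, covMat L ω (rw' E i j x) (cl' E j x) with hP
  have hPpos : 0 < P := by
    refine Finset.prod_pos fun x hx => ?_
    rcases x with _ | p
    · exfalso; rw [mem_compl] at hx; exact hx (by simp [hT])
    · exact cov_diag_pos hL hp.2 p.1
  have h2 : ∏ x, covMat L ω (rw' E i j x) (cl' E j x) =
      covMat L ω i j * covMat L ω c.1 c.1 * P := by
    rw [← Finset.prod_mul_prod_compl T, hT, Finset.prod_pair (by simp)]
    rfl
  have h3 : ∏ x, covMat L ω (rw' E i j ((Equiv.swap none (some c)) x)) (cl' E j x) =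
      covMat L ω i c.1 * covMat L ω c.1 j * P := by
    rw [← Finset.prod_mul_prod_compl T]
    congr 1
    · rw [hT, Finset.prod_pair (by simp), Equiv.swap_apply_left, Equiv.swap_apply_right, mul_comm]
      rfl
    · refine Finset.prod_congr rfl fun x hx => ?_
      rw [mem_compl, hT, Finset.mem_insert, Finset.mem_singleton, not_or] at hx
      rw [Equiv.swap_apply_of_ne_of_ne hx.1 hx.2]
  rw [h2, h3] at h1
  have hPK : ((P : ℝ) : K) ≠ 0 := by
    rw [Ne, RCLike.ofReal_eq_zero]
    exact hPpos.ne'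
  rw [RCLike.ofReal_mul (r := covMat L ω i j * covMat L ω c.1 c.1),
    RCLike.ofReal_mul (r := covMat L ω i c.1 * covMat L ω c.1 j), ← mul_assoc] at h1
  exact mul_right_cancel₀ hPK h1

/-- reachability by a directed path which avoids `c` -/
def Av (E : Fin n → Fin n → Prop) (c : Fin n) : Fin n → Fin n → Prop :=
  ReflTransGen fun a b => E a b ∧ a ≠ c ∧ b ≠ c

theorem av_ne {c a b : Fin n} (h : Av E c a b) (hb : b ≠ c) : a ≠ c := by
  induction h using ReflTransGen.head_induction_on with
  | refl => exact hb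
  | head h1 _ _ => exact h1.2.1

theorem av_reach {c a b : Fin n} (h : Av E c a b) : ReflTransGen E a b :=
  rmono (fun _ _ hab => hab.1) h

variable {i j}

/-- All treks go through `c`. -/
theorem no_av {K : Type} [RCLike K] (hE : ∀ v, ¬ TransGen E v v) {c : Fin n} (hic : i ≠ c)
    {k : K} (hrel : ∀ L ω, Par E L ω → ((covMat L ω i j * covMat L ω c c : ℝ) : K) =
        k * ((covMat L ω i c * covMat L ω c j : ℝ) : K)) (t : Fin n) :
    ¬ (Av E c t i ∧ Av E c t j) := by
  rintro ⟨h1, h2⟩
  set F : Fin n → Fin n → Prop := fun a b => E a b ∧ a ≠ c ∧ b ≠ c with hF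
  have hFE : ∀ u v, F u v → E u v := fun _ _ h => h.1
  have hA := adj_acyc hE hFE
  have h3 : 0 < covMat (adj F) 1 i j := cov_pos hA (adj_nonneg F) (adj_reach h1) (adj_reach h2)
  have h4 : 0 < covMat (adj F) 1 c c := cov_diag_pos hA (fun _ => one_pos) c
  have h5 : covMat (adj F) 1 i c = 0 := by
    by_contra h
    obtain ⟨s, hs1, hs2⟩ := cov_ne_zero hA h
    have h6 : s = c := by
      rcases ReflTransGen.cases_tail hs2 with h | ⟨d, -, hd⟩
      · exact h.symm
      · exact absurd rfl (adj_ne hd).2.2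
    rw [h6] at hs1
    rcases ReflTransGen.cases_head hs1 with h | ⟨d, hd, -⟩
    · exact hic h.symm
    · exact absurd rfl (adj_ne hd).2.1
  have h6 := hrel _ _ (adj_par hFE)
  rw [h5, zero_mul, RCLike.ofReal_zero, mul_zero, RCLike.ofReal_eq_zero] at h6
  exact (mul_pos h3 h4).ne' h6

/-- There is no path with a collider at `c` or above `c`. -/
theorem no_coll {K : Type} [RCLike K] (hE : ∀ v, ¬ TransGen E v v) {c : Fin n} (hic : i ≠ c)
    (hjc : j ≠ c) {k : K} (hk : k ≠ 0)
    (hrel : ∀ L ω, Par E L ω → ((covMat L ω i j * covMat L ω c c : ℝ) : K) =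
        k * ((covMat L ω i c * covMat L ω c j : ℝ) : K)) :
    ¬ ((∃ t, t ≠ c ∧ Av E c t i ∧ ReflTransGen E t c) ∧
      ∃ t, t ≠ c ∧ Av E c t j ∧ ReflTransGen E t c) := by
  rintro ⟨⟨t, -, h1, h2⟩, ⟨t', -, h1', h2'⟩⟩
  set F : Fin n → Fin n → Prop := fun a b => E a b ∧ a ≠ c with hF
  have hFE : ∀ u v, F u v → E u v := fun _ _ h => h.1
  have hA := adj_acyc hE hFE
  have hto : ∀ {a}, ReflTransGen E a c → ReflTransGen F a c := by
    intro a h
    induction h using ReflTransGen.head_induction_on with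
    | refl => exact ReflTransGen.refl
    | head h3 h4 ih =>
      refine ReflTransGen.head ⟨h3, ?_⟩ ih
      rintro rfl
      exact hE _ (TransGen.head' h3 h4)
  have hav : ∀ {a b}, Av E c a b → ReflTransGen F a b := fun h =>
    rmono (fun _ _ hab => ⟨hab.1, hab.2.1⟩) h
  have h3 : 0 < covMat (adj F) 1 i c :=
    cov_pos hA (adj_nonneg F) (adj_reach (hav h1)) (adj_reach (hto h2))
  have h4 : 0 < covMat (adj F) 1 c j :=
    cov_pos hA (adj_nonneg F) (adj_reach (hto h2')) (adj_reach (hav h1'))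
  have h5 := hrel _ _ (adj_par hFE)
  have h6 : ((covMat (adj F) 1 i j * covMat (adj F) 1 c c : ℝ) : K) ≠ 0 := by
    rw [h5]
    refine mul_ne_zero hk ?_
    rw [Ne, RCLike.ofReal_eq_zero]
    exact (mul_pos h3 h4).ne'
  rw [Ne, RCLike.ofReal_eq_zero] at h6
  obtain ⟨s, hs1, hs2⟩ := cov_ne_zero hA (left_ne_zero_of_mul h6)
  have hback : ∀ {a b}, b ≠ c → ReflTransGen (fun a b => adj F a b ≠ 0) a b → Av E c a b := by
    intro a b hb h
    have h7 : a ≠ c ∧ Av E c a b := by
      induction h using ReflTransGen.head_induction_on with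
      | refl => exact ⟨hb, ReflTransGen.refl⟩
      | head h8 _ ih =>
        have h9 := adj_ne h8
        exact ⟨h9.2, ReflTransGen.head ⟨h9.1, h9.2, ih.1⟩ ih.2⟩
    exact h7.2
  exact no_av hE hic hrel s ⟨hback hic hs1, hback hjc hs2⟩

end

end Pool.Agent.V11330.TG
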