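import Mathlib
import Pool.Agent.V11330.TG.Core

/-!
# Paths, colliders and d-separation
-/

set_option autoImplicit false

namespace Pool.Agent.V11330.TG

open Relation

section

variable {n : ℕ} {E : Fin n → Fin n → Prop}

/-- `v 0, v 1, ..., v m` is a path in the skeleton of the directed graph `E`: consecutive vertices
are joined by an edge (of any orientation) and no vertex is repeated. -/
def IsPath (E : Fin n → Fin n → Prop) (m : ℕ) (v : ℕ → Fin n) : Prop :=
  (∀ k < m, E (v k) (v (k + 1)) ∨ E (v (k + 1)) (v k)) ∧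
    ∀ k ≤ m, ∀ l ≤ m, v k = v l → k = l

/-- the interior vertex `v k` of a path is a collider: both path edges at `v k` point into `v k` -/
def Coll (E : Fin n → Fin n → Prop) (v : ℕ → Fin n) (k : ℕ) : Prop :=
  E (v (k - 1)) (v k) ∧ E (v (k + 1)) (v k)

/-- `C` d-separates `i` and `j`: the set `C` contains neither `i` nor `j`, and every path from `i`
to `j` has an interior vertex which is a non-collider in `C` or a collider such that neither the
collider nor any of its descendants is in `C`. -/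
def DSep (E : Fin n → Fin n → Prop) (i j : Fin n) (C : Finset (Fin n)) : Prop :=
  i ∉ C ∧ j ∉ C ∧ ∀ (m : ℕ) (v : ℕ → Fin n), IsPath E m v → v 0 = i → v m = j →
    ∃ k, 0 < k ∧ k < m ∧
      ((¬ Coll E v k ∧ v k ∈ C) ∨ (Coll E v k ∧ ∀ d, ReflTransGen E (v k) d → d ∉ C))

theorem isPath_rev {m : ℕ} {v : ℕ → Fin n} (h : IsPath E m v) :
    IsPath E m (fun k => v (m - k)) := by
  refine ⟨fun k hk => ?_, fun k hk l hl hkl => ?_⟩
  · have h1 := h.1 (m - (k + 1)) (by omega)
    have h2 : m - (k + 1) + 1 = m - k := by omega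
    rw [h2] at h1
    exact h1.symm
  · have := h.2 (m - k) (by omega) (m - l) (by omega) hkl
    omega

theorem coll_rev {m : ℕ} {v : ℕ → Fin n} {k : ℕ} (h0 : 0 < k) (hk : k < m) :
    Coll E (fun k => v (m - k)) k ↔ Coll E v (m - k) := by
  unfold Coll
  have h1 : m - (k - 1) = m - k + 1 := by omega
  have h2 : m - (k + 1) = m - k - 1 := by omega
  simp only [h1, h2]
  exact and_comm

theorem dSep_symm {i j : Fin n} {C : Finset (Fin n)} (h : DSep E i j C) : DSep E j i C := by
  refine ⟨h.2.1, h.1, fun m v hv h0 hm => ?_⟩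
  obtain ⟨k, hk0, hkm, hk⟩ := h.2.2 m (fun k => v (m - k)) (isPath_rev hv) (by simpa using hm)
    (by simpa using h0)
  refine ⟨m - k, by omega, by omega, ?_⟩
  rw [coll_rev hk0 hkm] at hk
  exact hk

theorem run {c i j : Fin n} (hE : ∀ v, ¬ TransGen E v v) (hic : i ≠ c) (hjc : j ≠ c)
    (ha : ∀ t, ¬ (Av E c t i ∧ Av E c t j)) {m : ℕ} {v : ℕ → Fin n}
    (hp : ∀ k < m, E (v k) (v (k + 1)) ∨ E (v (k + 1)) (v k)) (h0 : v 0 = i) (hm : v m = j)
    (hc : ∀ k, 0 < k → k < m → Coll E v k → ReflTransGen E (v k) c)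
    (hn : ∀ k, 0 < k → k < m → ¬ Coll E v k → v k ≠ c) :
    ∃ t, t ≠ c ∧ Av E c t i ∧ ReflTransGen E t c := by
  have key : ∀ k ≤ m, (∃ t, t ≠ c ∧ Av E c t i ∧ ReflTransGen E t c) ∨
      (v k ≠ c ∧ Av E c (v k) i) ∨
      (v k ≠ c ∧ (∃ t, Av E c t i ∧ Av E c t (v k)) ∧ 0 < k ∧ E (v (k - 1)) (v k)) := by
    intro k
    induction k with
    | zero =>
      intro _
      right; left
      rw [h0]
      exact ⟨hic, ReflTransGen.refl⟩
    | succ k ih =>
      intro hk
      rcases ih (by omega) with h | h | h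
      · exact Or.inl h
      · obtain ⟨h1, h2⟩ := h
        rcases hp k (by omega) with h3 | h3
        · by_cases h4 : v (k + 1) = c
          · left
            refine ⟨v k, h1, h2, ?_⟩
            rw [h4] at h3
            exact ReflTransGen.single h3
          · right; right
            refine ⟨h4, ⟨v k, h2, ReflTransGen.single ⟨h3, h1, h4⟩⟩, by omega, ?_⟩
            rw [Nat.add_sub_cancel]
            exact h3
        · have h4 : v (k + 1) ≠ c := by
            by_cases h5 : k + 1 = m
            · rw [h5, hm]; exact hjc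
            · refine hn (k + 1) (by omega) (by omega) ?_
              rintro ⟨h6, -⟩
              rw [Nat.add_sub_cancel] at h6
              exact hE _ (TransGen.tail (TransGen.single h6) h3)
          right; left
          exact ⟨h4, ReflTransGen.head ⟨h3, h4, h1⟩ h2⟩
      · obtain ⟨h1, ⟨t, ht1, ht2⟩, h2, h3⟩ := h
        have htc : t ≠ c := av_ne ht2 h1
        rcases hp k (by omega) with h4 | h4
        · by_cases h5 : v (k + 1) = c
          · left
            refine ⟨t, htc, ht1, ?_⟩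
            rw [h5] at h4
            exact (av_reach ht2).tail h4
          · right; right
            refine ⟨h5, ⟨t, ht1, ht2.tail ⟨h4, h1, h5⟩⟩, by omega, ?_⟩
            rw [Nat.add_sub_cancel]
            exact h4
        · left
          exact ⟨t, htc, ht1, (av_reach ht2).trans (hc k h2 (by omega) ⟨h3, h4⟩)⟩
  rcases key m le_rfl with h | h | h
  · exact h
  · exfalso
    obtain ⟨h1, h2⟩ := h
    rw [hm] at h2
    exact ha j ⟨h2, ReflTransGen.refl⟩
  · exfalso
    obtain ⟨h1, ⟨t, ht1, ht2⟩, -, -⟩ := h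
    rw [hm] at ht2
    exact ha t ⟨ht1, ht2⟩

theorem run0 {i j : Fin n}
    (ha : ∀ t, ¬ (ReflTransGen E t i ∧ ReflTransGen E t j)) {m : ℕ} {v : ℕ → Fin n}
    (hp : ∀ k < m, E (v k) (v (k + 1)) ∨ E (v (k + 1)) (v k)) (h0 : v 0 = i) (hm : v m = j)
    (hc : ∀ k, 0 < k → k < m → ¬ Coll E v k) : False := by
  have key : ∀ k ≤ m, (ReflTransGen E (v k) i) ∨
      ((∃ t, ReflTransGen E t i ∧ ReflTransGen E t (v k)) ∧ 0 < k ∧ E (v (k - 1)) (v k)) := by
    intro k
    induction k with
    | zero =>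
      intro _
      left
      rw [h0]
    | succ k ih =>
      intro hk
      rcases ih (by omega) with h | h
      · rcases hp k (by omega) with h3 | h3
        · right
          refine ⟨⟨v k, h, ReflTransGen.single h3⟩, by omega, ?_⟩
          rw [Nat.add_sub_cancel]
          exact h3
        · left
          exact ReflTransGen.head h3 h
      · obtain ⟨⟨t, ht1, ht2⟩, h2, h3⟩ := h
        rcases hp k (by omega) with h4 | h4
        · right
          refine ⟨⟨t, ht1, ht2.tail h4⟩, by omega, ?_⟩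
          rw [Nat.add_sub_cancel]
          exact h4
        · exact absurd ⟨h3, h4⟩ (hc k h2 (by omega))
  rcases key m le_rfl with h | h
  · rw [hm] at h
    exact ha j ⟨h, ReflTransGen.refl⟩
  · obtain ⟨⟨t, ht1, ht2⟩, -, -⟩ := h
    rw [hm] at ht2
    exact ha t ⟨ht1, ht2⟩

theorem dSep_single {c i j : Fin n} (hE : ∀ v, ¬ TransGen E v v) (hic : i ≠ c) (hjc : j ≠ c)
    (ha : ∀ t, ¬ (Av E c t i ∧ Av E c t j))
    (hb : ¬ ((∃ t, t ≠ c ∧ Av E c t i ∧ ReflTransGen E t c) ∧
      ∃ t, t ≠ c ∧ Av E c t j ∧ ReflTransGen E t c)) : DSep E i j {c} := by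
  refine ⟨by simpa using hic, by simpa using hjc, fun m v hv h0 hm => ?_⟩
  by_contra hcon
  push Not at hcon
  have hc : ∀ k, 0 < k → k < m → Coll E v k → ReflTransGen E (v k) c := by
    intro k hk0 hkm hk
    obtain ⟨d, hd1, hd2⟩ := (hcon k hk0 hkm).2 hk
    rw [Finset.mem_singleton] at hd2
    rw [← hd2]
    exact hd1
  have hn : ∀ k, 0 < k → k < m → ¬ Coll E v k → v k ≠ c := by
    intro k hk0 hkm hk h
    exact (hcon k hk0 hkm).1 hk (by rw [Finset.mem_singleton]; exact h)
  apply hb
  refine ⟨run hE hic hjc ha hv.1 h0 hm hc hn, ?_⟩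
  refine run hE hjc hic (fun t ht => ha t ⟨ht.2, ht.1⟩) (isPath_rev hv).1 (v := fun k => v (m - k))
    (by simpa using hm) (by simpa using h0) ?_ ?_
  · intro k hk0 hkm hk
    rw [coll_rev hk0 hkm] at hk
    exact hc _ (by omega) (by omega) hk
  · intro k hk0 hkm hk
    rw [coll_rev hk0 hkm] at hk
    exact hn _ (by omega) (by omega) hk

theorem dSep_empty {i j : Fin n} (ha : ∀ t, ¬ (ReflTransGen E t i ∧ ReflTransGen E t j)) :
    DSep E i j ∅ := by
  refine ⟨by simp, by simp, fun m v hv h0 hm => ?_⟩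
  by_contra hcon
  push Not at hcon
  refine run0 ha hv.1 h0 hm fun k hk0 hkm hk => ?_
  obtain ⟨d, -, hd⟩ := (hcon k hk0 hkm).2 hk
  exact absurd hd (by simp)

open Classical in
theorem exists_dSep {K : Type} [RCLike K] (hE : ∀ v, ¬ TransGen E v v) {i j : Fin n}
    (hji : ¬ ReflTransGen E j i) (hij : ¬ E i j) (hcp : ClassProp (vanIdeal K E)) :
    ∃ C : Finset (Fin n), C.card ≤ 1 ∧ DSep E i j C := by
  by_cases htrek : ∃ t, ReflTransGen E t i ∧ ReflTransGen E t j
  · obtain ⟨c, hcj, k, hk, hrel⟩ := exists_quad i j hE hji hij hcp htrek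
    have hic : i ≠ c := by rintro rfl; exact hij hcj
    have hjc : j ≠ c := by rintro rfl; exact hE _ (TransGen.single hcj)
    refine ⟨{c}, by simp, dSep_single hE hic hjc (no_av hE hic hrel) (no_coll hE hic hjc hk hrel)⟩
  · push Not at htrek
    exact ⟨∅, by simp, dSep_empty fun t ht => htrek t ht.1 ht.2⟩

/-- The main result. -/
theorem exists_dSep' {K : Type} [RCLike K] (hE : ∀ v, ¬ TransGen E v v) {i j : Fin n}
    (hne : i ≠ j) (hij : ¬ E i j) (hji : ¬ E j i) (hcp : ClassProp (vanIdeal K E)) :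
    ∃ C : Finset (Fin n), C.card ≤ 1 ∧ DSep E i j C := by
  by_cases h : ReflTransGen E j i
  · have h' : ¬ ReflTransGen E i j := by
      intro h'
      rcases ReflTransGen.cases_head h with h1 | ⟨d, h1, h2⟩
      · exact hne h1.symm
      · exact hE j (TransGen.head' h1 (h2.trans h'))
    obtain ⟨C, h1, h2⟩ := exists_dSep hE h' hji hcp
    exact ⟨C, h1, dSep_symm h2⟩
  · exact exists_dSep hE h hij hcp

theorem not_dSep_adj {i j : Fin n} (hne : i ≠ j) (h : E i j ∨ E j i) (C : Finset (Fin n)) :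
    ¬ DSep E i j C := by
  rintro ⟨-, -, h1⟩
  obtain ⟨k, hk0, hk1, -⟩ := h1 1 (fun k => if k = 0 then i else j) ⟨fun k hk => by
    have : k = 0 := by omega
    subst this
    simpa using h, fun k hk l hl hkl => by
      by_contra hkl'
      have : (k = 0 ∧ l = 1) ∨ (k = 1 ∧ l = 0) := by omega
      rcases this with ⟨rfl, rfl⟩ | ⟨rfl, rfl⟩
      · simp at hkl; exact hne hkl
      · simp at hkl; exact hne hkl.symm⟩ (by simp) (by simp)
  omega

end

end Pool.Agent.V11330.TG
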