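import Mathlib
import Pool.Agent.V11330.TG.Core

/-!
# The variances and the covariances of the edges are algebraically independent
-/

set_option autoImplicit false

namespace Pool.Agent.V11330.TG

open Relation Filter Topology Matrix

section lim

variable {V : Type} [Fintype V] [DecidableEq V]

theorem tendsto_inv {A : Matrix V V ℝ} (hA : Acyc A) (u v : V) :
    Tendsto (fun ε : ℝ => (1 - ε • A)⁻¹ u v) (𝓝[>] 0) (𝓝 ((1 : Matrix V V ℝ) u v)) := by
  obtain ⟨N, hN⟩ := exists_pow_zero hA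
  have h1 : ∀ ε : ℝ, (1 - ε • A)⁻¹ = ∑ k ∈ Finset.range (N + 1), ε ^ k • A ^ k := by
    intro ε
    have h2 : (ε • A) ^ (N + 1) = 0 := by
      rw [smul_pow, pow_succ A, hN, zero_mul, smul_zero]
    rw [inv_eq h2]
    exact Finset.sum_congr rfl fun k _ => smul_pow _ _ _
  have h3 : ∀ ε : ℝ, (1 - ε • A)⁻¹ u v = ∑ k ∈ Finset.range (N + 1), ε ^ k * (A ^ k) u v := by
    intro ε
    rw [h1, Matrix.sum_apply]
    rfl
  have h4 : Continuous fun ε : ℝ => ∑ k ∈ Finset.range (N + 1), ε ^ k * (A ^ k) u v := by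
    fun_prop
  have h5 : (∑ k ∈ Finset.range (N + 1), (0 : ℝ) ^ k * (A ^ k) u v) = (1 : Matrix V V ℝ) u v := by
    rw [Finset.sum_range_succ']
    simp
  simp only [h3]
  rw [← h5]
  exact (h4.tendsto 0).mono_left nhdsWithin_le_nhds

theorem tendsto_inv_div {A : Matrix V V ℝ} (hA : Acyc A) {u v : V} (huv : u ≠ v) :
    Tendsto (fun ε : ℝ => (1 - ε • A)⁻¹ u v / ε) (𝓝[>] 0) (𝓝 (A u v)) := by
  have hac : ∀ ε : ℝ, Acyc (ε • A) := by
    intro ε
    obtain ⟨b, hb⟩ := hA
    refine ⟨b, fun u v h => hb u v fun h' => h ?_⟩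
    rw [Matrix.smul_apply, h', smul_zero]
  have h1 : (fun ε : ℝ => (1 - ε • A)⁻¹ u v / ε) =ᶠ[𝓝[>] 0]
      fun ε : ℝ => ∑ p, (1 - ε • A)⁻¹ u p * A p v := by
    filter_upwards [self_mem_nhdsWithin] with ε hε
    have hε' : ε ≠ 0 := ne_of_gt hε
    rw [inv_rec (hac ε), Matrix.one_apply_ne huv, zero_add, Finset.sum_div]
    refine Finset.sum_congr rfl fun p _ => ?_
    rw [Matrix.smul_apply, smul_eq_mul]
    field_simp
  rw [tendsto_congr' h1]
  have h2 : (A u v) = ∑ p, (1 : Matrix V V ℝ) u p * A p v := by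
    rw [← Matrix.mul_apply, Matrix.one_mul]
  rw [h2]
  exact tendsto_finsetSum _ fun p _ => (tendsto_inv hA u p).mul_const _

theorem tendsto_cov_self {A : Matrix V V ℝ} (hA : Acyc A) (ω : V → ℝ) (p : V) :
    Tendsto (fun ε : ℝ => covMat (ε • A) ω p p) (𝓝[>] 0) (𝓝 (ω p)) := by
  simp only [covMat_apply]
  have h1 : ω p = ∑ t, ω t * ((1 : Matrix V V ℝ) t p * (1 : Matrix V V ℝ) t p) := by
    rw [Finset.sum_eq_single p]
    · simp
    · intro t _ ht
      rw [Matrix.one_apply_ne ht]; ring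
    · intro h; exact absurd (Finset.mem_univ _) h
  rw [h1]
  exact tendsto_finsetSum _ fun t _ => ((tendsto_inv hA t p).mul (tendsto_inv hA t p)).const_mul _

theorem tendsto_cov_div {A : Matrix V V ℝ} (hA : Acyc A) (ω : V → ℝ) {p q : V} (hpq : p ≠ q)
    (hqp : A q p = 0) :
    Tendsto (fun ε : ℝ => covMat (ε • A) ω p q / ε) (𝓝[>] 0) (𝓝 (ω p * A p q)) := by
  have hac : ∀ ε : ℝ, Acyc (ε • A) := by
    intro ε
    obtain ⟨b, hb⟩ := hA
    refine ⟨b, fun u v h => hb u v fun h' => h ?_⟩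
    rw [Matrix.smul_apply, h', smul_zero]
  have h0 : ∀ ε : ℝ, covMat (ε • A) ω p q / ε =
      ∑ t, ω t * ((1 - ε • A)⁻¹ t p * (1 - ε • A)⁻¹ t q / ε) := by
    intro ε
    rw [covMat_apply, Finset.sum_div]
    exact Finset.sum_congr rfl fun t _ => by ring
  simp only [h0]
  have h1 : ω p * A p q = ∑ t, ω t * (if t = p then A p q else A t p * (1 : Matrix V V ℝ) t q) := by
    rw [Finset.sum_eq_single p]
    · simp
    · intro t _ ht
      rw [if_neg ht]
      by_cases htq : t = q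
      · rw [htq, hqp]; ring
      · rw [Matrix.one_apply_ne htq]; ring
    · intro h; exact absurd (Finset.mem_univ _) h
  rw [h1]
  refine tendsto_finsetSum _ fun t _ => Tendsto.const_mul _ ?_
  split_ifs with ht
  · subst ht
    have h2 : ∀ ε : ℝ, (1 - ε • A)⁻¹ t t * (1 - ε • A)⁻¹ t q / ε = (1 - ε • A)⁻¹ t q / ε := by
      intro ε
      rw [inv_diag (hac ε), one_mul]
    simp only [h2]
    exact tendsto_inv_div hA hpq
  · have h2 : ∀ ε : ℝ, (1 - ε • A)⁻¹ t p * (1 - ε • A)⁻¹ t q / ε =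
        (1 - ε • A)⁻¹ t p / ε * (1 - ε • A)⁻¹ t q := by
      intro ε; ring
    simp only [h2]
    exact (tendsto_inv_div hA ht).mul (tendsto_inv hA t q)

end lim

section

variable {n : ℕ} {E : Fin n → Fin n → Prop}

/-- the variables of the vertices and of the edges -/
def UV (E : Fin n → Fin n → Prop) (p : Idx n) : Prop := p.1.1 = p.1.2 ∨ E p.1.1 p.1.2

theorem sg_self (p : Idx n) : sg p.1.1 p.1.2 = p := by
  unfold sg
  rw [dif_pos p.2]

/-- the degree of a variable -/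
def wt (p : Idx n) : ℕ := if p.1.1 = p.1.2 then 0 else 1

open Classical in
/-- a matrix of parameters with prescribed leading terms -/
noncomputable def Wz (E : Fin n → Fin n → Prop) (z : Idx n → ℝ) : Matrix (Fin n) (Fin n) ℝ :=
  Matrix.of fun p q => if E p q then z (sg p q) / z (sg p p) else 0

theorem Wz_nonneg {z : Idx n → ℝ} (hz : ∀ p, 0 < z p) (p q : Fin n) : 0 ≤ Wz E z p q := by
  unfold Wz
  rw [Matrix.of_apply]
  split_ifs
  · exact (div_pos (hz _) (hz _)).le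
  · exact le_rfl

theorem Wz_pos {z : Idx n → ℝ} (hz : ∀ p, 0 < z p) {p q : Fin n} (h : E p q) : 0 < Wz E z p q := by
  unfold Wz
  rw [Matrix.of_apply, if_pos h]
  exact div_pos (hz _) (hz _)

theorem Wz_zero {z : Idx n → ℝ} {p q : Fin n} (h : ¬ E p q) : Wz E z p q = 0 := by
  unfold Wz
  rw [Matrix.of_apply, if_neg h]

theorem tendsto_UV (hlab : ∀ i j, E i j → i < j) (hE : ∀ v, ¬ TransGen E v v) {z : Idx n → ℝ}
    (hz : ∀ p, 0 < z p) {u : Idx n} (hu : UV E u) :
    Tendsto (fun ε : ℝ => covMat (ε • Wz E z) (fun p => z (sg p p)) u.1.1 u.1.2 / ε ^ wt u) (𝓝[>] 0)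
      (𝓝 (z u)) := by
  have hA : Acyc (Wz E z) := acyc_of hE fun u v h => Wz_zero h
  by_cases h : u.1.1 = u.1.2
  · unfold wt
    simp only [if_pos h, pow_zero, div_one]
    have h1 := tendsto_cov_self hA (fun p => z (sg p p)) u.1.1
    have h2 : sg u.1.1 u.1.1 = u := by
      conv_rhs => rw [← sg_self u]
      rw [← h]
    rw [h2] at h1
    rw [← h]
    exact h1
  · have hE' : E u.1.1 u.1.2 := hu.resolve_left h
    unfold wt
    simp only [if_neg h, pow_one]
    have h0 : ¬ E u.1.2 u.1.1 := fun h' => lt_asymm (hlab _ _ hE') (hlab _ _ h')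
    have h1 := tendsto_cov_div hA (fun p => z (sg p p)) h (Wz_zero h0)
    have h2 : z (sg u.1.1 u.1.1) * Wz E z u.1.1 u.1.2 = z u := by
      unfold Wz
      rw [Matrix.of_apply, if_pos hE', sg_self, mul_div_cancel₀ _ (hz _).ne']
    rw [h2] at h1
    exact h1

/-- exponents are determined by the values at positive points -/
theorem exp_eq_of_val {U : Type} [Fintype U] {a b : U → ℕ} {κ : ℝ}
    (h : ∀ z : U → ℝ, (∀ u, 0 < z u) → ∏ u, z u ^ a u = κ * ∏ u, z u ^ b u) : a = b := by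
  classical
  have h1 := h (fun _ => 1) fun _ => one_pos
  simp only [one_pow, Finset.prod_const_one, mul_one] at h1
  funext v
  have h2 := h (fun u => if u = v then 2 else 1) fun u => by split_ifs <;> norm_num
  rw [← h1, one_mul] at h2
  have h3 : ∀ c : U → ℕ, ∏ u, (if u = v then (2 : ℝ) else 1) ^ c u = 2 ^ c v := by
    intro c
    rw [Finset.prod_eq_single v]
    · rw [if_pos rfl]
    · intro u _ hu
      rw [if_neg hu, one_pow]
    · intro h; exact absurd (Finset.mem_univ _) h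
  rw [h3, h3] at h2
  exact pow_right_injective₀ (by norm_num : (0 : ℝ) < 2) (by norm_num) h2

open Classical in
/-- If two monomials in the variables of vertices and edges are proportional on the model, then
they are equal. -/
theorem exp_eq (hlab : ∀ i j, E i j → i < j) (hE : ∀ v, ¬ TransGen E v v)
    {a b : {p : Idx n // UV E p} → ℕ} {κ : ℝ} (hκ : 0 < κ)
    (h : ∀ L ω, Par E L ω → (∀ u v, 0 ≤ L u v) →
      ∏ u : {p : Idx n // UV E p}, covMat L ω u.1.1.1 u.1.1.2 ^ a u =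
        κ * ∏ u : {p : Idx n // UV E p}, covMat L ω u.1.1.1 u.1.1.2 ^ b u) : a = b := by
  apply exp_eq_of_val (κ := κ)
  intro z' hz'
  set z : Idx n → ℝ := fun p => if hp : UV E p then z' ⟨p, hp⟩ else 1 with hzdef
  have hz : ∀ p, 0 < z p := by
    intro p
    simp only [hzdef]
    split_ifs
    · exact hz' _
    · exact one_pos
  have hzz : ∀ u : {p : Idx n // UV E p}, z u.1 = z' u := by
    intro u
    simp only [hzdef]
    rw [dif_pos u.2]
  set ω : Fin n → ℝ := fun p => z (sg p p) with hω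
  set y : ℝ → {p : Idx n // UV E p} → ℝ :=
    fun ε u => covMat (ε • Wz E z) ω u.1.1.1 u.1.1.2 / ε ^ wt u.1 with hy
  have hyt : ∀ c : {p : Idx n // UV E p} → ℕ,
      Tendsto (fun ε : ℝ => ∏ u, y ε u ^ c u) (𝓝[>] 0) (𝓝 (∏ u, z' u ^ c u)) := by
    intro c
    refine tendsto_finsetProd _ fun u _ => ?_
    rw [← hzz]
    exact (tendsto_UV hlab hE hz u.2).pow _
  have hzpos : ∀ c : {p : Idx n // UV E p} → ℕ, 0 < ∏ u, z' u ^ c u :=
    fun c => Finset.prod_pos fun u _ => pow_pos (hz' u) _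
  have hpar : ∀ ε : ℝ, Par E (ε • Wz E z) ω := by
    intro ε
    refine ⟨fun u v h => ?_, fun v => hz _⟩
    rw [Matrix.smul_apply, Wz_zero h, smul_zero]
  have hprod : ∀ ε : ℝ, 0 < ε → ∀ c : {p : Idx n // UV E p} → ℕ,
      ∏ u : {p : Idx n // UV E p}, covMat (ε • Wz E z) ω u.1.1.1 u.1.1.2 ^ c u =
        ε ^ (∑ u : {p : Idx n // UV E p}, wt u.1 * c u) * ∏ u, y ε u ^ c u := by
    intro ε hε c
    rw [← Finset.prod_pow_eq_pow_sum, ← Finset.prod_mul_distrib]
    refine Finset.prod_congr rfl fun u _ => ?_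
    rw [pow_mul, ← mul_pow]
    congr 1
    simp only [hy]
    rw [mul_div_cancel₀ _ (pow_pos hε _).ne']
  have hrel : ∀ ε : ℝ, 0 < ε →
      ε ^ (∑ u : {p : Idx n // UV E p}, wt u.1 * a u) * ∏ u, y ε u ^ a u =
        κ * (ε ^ (∑ u : {p : Idx n // UV E p}, wt u.1 * b u) * ∏ u, y ε u ^ b u) := by
    intro ε hε
    rw [← hprod ε hε, ← hprod ε hε]
    refine h _ _ (hpar ε) fun u v => ?_
    rw [Matrix.smul_apply]
    exact mul_nonneg hε.le (Wz_nonneg hz u v)
  set A := ∑ u : {p : Idx n // UV E p}, wt u.1 * a u with hA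
  set B := ∑ u : {p : Idx n // UV E p}, wt u.1 * b u with hB
  have hid : Tendsto (fun ε : ℝ => ε) (𝓝[>] 0) (𝓝 0) := tendsto_id.mono_left nhdsWithin_le_nhds
  rcases le_total A B with hAB | hAB
  · have h1 : (fun ε : ℝ => ∏ u, y ε u ^ a u) =ᶠ[𝓝[>] 0]
        fun ε : ℝ => κ * (ε ^ (B - A) * ∏ u, y ε u ^ b u) := by
      filter_upwards [self_mem_nhdsWithin] with ε hε
      have hε' : (0 : ℝ) < ε := hε
      have h2 := hrel ε hε'
      have h3 : ε ^ B = ε ^ A * ε ^ (B - A) := by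
        rw [← pow_add, Nat.add_sub_cancel' hAB]
      rw [h3] at h2
      have h4 : ε ^ A * ∏ u, y ε u ^ a u = ε ^ A * (κ * (ε ^ (B - A) * ∏ u, y ε u ^ b u)) := by
        rw [h2]; ring
      exact mul_left_cancel₀ (pow_pos hε' _).ne' h4
    have h2 := (hyt a).congr' h1
    have h3 : Tendsto (fun ε : ℝ => κ * (ε ^ (B - A) * ∏ u, y ε u ^ b u)) (𝓝[>] 0)
        (𝓝 (κ * (0 ^ (B - A) * ∏ u, z' u ^ b u))) :=
      ((hid.pow _).mul (hyt b)).const_mul _
    have h4 := tendsto_nhds_unique h2 h3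
    rcases Nat.eq_zero_or_pos (B - A) with h5 | h5
    · rw [h5, pow_zero, one_mul] at h4
      exact h4
    · rw [zero_pow h5.ne', zero_mul, mul_zero] at h4
      exact absurd h4 (hzpos a).ne'
  · have h1 : (fun ε : ℝ => κ * ∏ u, y ε u ^ b u) =ᶠ[𝓝[>] 0]
        fun ε : ℝ => (ε ^ (A - B) * ∏ u, y ε u ^ a u) := by
      filter_upwards [self_mem_nhdsWithin] with ε hε
      have hε' : (0 : ℝ) < ε := hε
      have h2 := hrel ε hε'
      have h3 : ε ^ A = ε ^ B * ε ^ (A - B) := by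
        rw [← pow_add, Nat.add_sub_cancel' hAB]
      rw [h3] at h2
      have h4 : ε ^ B * (κ * ∏ u, y ε u ^ b u) = ε ^ B * (ε ^ (A - B) * ∏ u, y ε u ^ a u) := by
        rw [← mul_assoc, ← mul_assoc, h2]; ring
      exact mul_left_cancel₀ (pow_pos hε' _).ne' h4
    have h2 := ((hyt b).const_mul κ).congr' h1
    have h3 : Tendsto (fun ε : ℝ => (ε ^ (A - B) * ∏ u, y ε u ^ a u)) (𝓝[>] 0)
        (𝓝 ((0 ^ (A - B) * ∏ u, z' u ^ a u))) :=
      ((hid.pow _).mul (hyt a))
    have h4 := tendsto_nhds_unique h2 h3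
    rcases Nat.eq_zero_or_pos (A - B) with h5 | h5
    · rw [h5, pow_zero, one_mul] at h4
      exact h4.symm
    · rw [zero_pow h5.ne', zero_mul] at h4
      exact absurd h4 (mul_pos hκ (hzpos b)).ne'

end

end Pool.Agent.V11330.TG
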