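import Mathlib
import Pool.Agent.V11330.TG.Core

/-!
# Treks
-/

set_option autoImplicit false

namespace Pool.Agent.V11330.TG

open Relation

section

variable {n : ℕ} {E : Fin n → Fin n → Prop}

/-- `l` is a (simple) trek from `i` to `j`: the list of the vertices of a path which repeats no
vertex and has no collider. -/
def Trek (E : Fin n → Fin n → Prop) (i j : Fin n) (l : List (Fin n)) : Prop :=
  l.head? = some i ∧ l.getLast? = some j ∧ l.Nodup ∧
    (∀ x y, [x, y] <:+: l → E x y ∨ E y x) ∧ ∀ x y z, [x, y, z] <:+: l → ¬ (E x y ∧ E z y)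

/-- `l` is a trek of minimal length from `i` to `j` -/
def Shortest (E : Fin n → Fin n → Prop) (i j : Fin n) (l : List (Fin n)) : Prop :=
  Trek E i j l ∧ ∀ l', Trek E i j l' → l.length ≤ l'.length

theorem trek_reverse {i j : Fin n} {l : List (Fin n)} (h : Trek E i j l) :
    Trek E j i l.reverse := by
  obtain ⟨h1, h2, h3, h4, h5⟩ := h
  refine ⟨by rw [List.head?_reverse, h2], by rw [List.getLast?_reverse, h1],
    List.nodup_reverse.2 h3, fun x y hxy => ?_, fun x y z hxyz => ?_⟩
  · have h6 : [y, x] <:+: l := by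
      rw [← List.reverse_infix]
      simpa using hxy
    exact (h4 y x h6).symm
  · have h6 : [z, y, x] <:+: l := by
      rw [← List.reverse_infix]
      simpa using hxyz
    intro h7
    exact h5 z y x h6 ⟨h7.2, h7.1⟩

theorem shortest_reverse {i j : Fin n} {l : List (Fin n)} (h : Shortest E i j l) :
    Shortest E j i l.reverse := by
  refine ⟨trek_reverse h.1, fun l' hl' => ?_⟩
  have h1 := h.2 l'.reverse (trek_reverse hl')
  rw [List.length_reverse] at h1 ⊢
  exact h1

theorem trek_prefix {i j c : Fin n} {l1 l2 : List (Fin n)} (h : Trek E i j (l1 ++ c :: l2)) :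
    Trek E i c (l1 ++ [c]) := by
  obtain ⟨h1, h2, h3, h4, h5⟩ := h
  have hpre : l1 ++ [c] <+: l1 ++ c :: l2 := ⟨l2, by simp⟩
  refine ⟨?_, by simp, h3.sublist hpre.sublist, fun x y hxy => h4 x y (hxy.trans hpre.isInfix),
    fun x y z hxyz => h5 x y z (hxyz.trans hpre.isInfix)⟩
  cases l1 with
  | nil => simpa using h1
  | cons a t => simpa using h1

theorem infix_concat' {α : Type} {s l : List α} {a b : α} (h : (s ++ [b]) <:+: (l ++ [a])) :
    (s ++ [b]) <:+: l ∨ (b = a ∧ s <:+ l) := by
  rw [List.infix_concat_iff] at h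
  rcases h with h | h
  · right
    rw [List.suffix_concat_iff] at h
    rcases h with h | ⟨t, h1, h2⟩
    · simp at h
    · obtain ⟨h3, h4⟩ := List.append_inj' h1 rfl
      rw [← h3] at h2
      simp at h4
      exact ⟨h4, h2⟩
  · exact Or.inl h

theorem infix2_concat {α : Type} {l : List α} {a x y : α} (h : [x, y] <:+: (l ++ [a])) :
    [x, y] <:+: l ∨ (y = a ∧ l.getLast? = some x) := by
  rcases infix_concat' (s := [x]) h with h | ⟨h1, t, h2⟩
  · exact Or.inl h
  · right
    refine ⟨h1, ?_⟩
    rw [← h2]; simp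

theorem infix3_concat {α : Type} {l : List α} {a x y z : α} (h : [x, y, z] <:+: (l ++ [a])) :
    [x, y, z] <:+: l ∨ (z = a ∧ [x, y] <:+ l) :=
  infix_concat' (s := [x, y]) h

theorem getLast?_of_suffix2 {α : Type} {l : List α} {x y : α} (h : [x, y] <:+ l) :
    l.getLast? = some y := by
  obtain ⟨t, rfl⟩ := h
  simp

theorem trek_append {i c j : Fin n} {l : List (Fin n)} (hl : Trek E i c l) (hj : j ∉ l)
    (hcj : E c j) (hjc : ¬ E j c) : Trek E i j (l ++ [j]) := by
  obtain ⟨h1, h2, h3, h4, h5⟩ := hl
  refine ⟨?_, by simp, ?_, fun x y hxy => ?_, fun x y z hxyz => ?_⟩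
  · rw [List.head?_append, h1]; rfl
  · rw [List.nodup_append]
    refine ⟨h3, by simp, ?_⟩
    intro a ha b hb
    rw [List.mem_singleton] at hb
    rintro rfl
    exact hj (hb ▸ ha)
  · rcases infix2_concat hxy with h | ⟨h, h'⟩
    · exact h4 x y h
    · rw [h2] at h'
      simp at h'
      rw [h, ← h']
      exact Or.inl hcj
  · rcases infix3_concat hxyz with h | ⟨h, h'⟩
    · exact h5 x y z h
    · have h6 := getLast?_of_suffix2 h'
      rw [h2] at h6
      simp at h6
      rintro ⟨-, h7⟩
      rw [h, ← h6] at h7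
      exact hjc h7

theorem trek_single (i : Fin n) : Trek E i i [i] := by
  refine ⟨rfl, rfl, by simp, fun x y h => ?_, fun x y z h => ?_⟩
  · have := h.length_le; simp at this
  · have := h.length_le; simp at this

/-- The state at the end of a trek. -/
theorem trek_state {P : Fin n → Prop} (l : List (Fin n)) : ∀ i w, Trek E i w l → (∀ x ∈ l, P x) →
    (ReflTransGen (fun a b => E a b ∧ P a ∧ P b) w i ∧
      ∀ x ∈ l, ReflTransGen (fun a b => E a b ∧ P a ∧ P b) x i) ∨
    (∃ t, ReflTransGen (fun a b => E a b ∧ P a ∧ P b) t i ∧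
      ReflTransGen (fun a b => E a b ∧ P a ∧ P b) t w ∧ (∃ u, [u, w] <:+ l ∧ E u w) ∧
      ∀ x ∈ l, ReflTransGen (fun a b => E a b ∧ P a ∧ P b) x i ∨
        ReflTransGen (fun a b => E a b ∧ P a ∧ P b) x w) := by
  induction l using List.reverseRecOn with
  | nil =>
    intro i w h
    have := h.1
    simp at this
  | append_singleton l a ih =>
    intro i w h hP
    have hwa : w = a := by
      have := h.2.1
      simp at this
      exact this.symm
    subst hwa
    by_cases hl : l = []
    · subst hl
      have hi : w = i := by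
        have := h.1
        simpa using this
      subst hi
      left
      refine ⟨ReflTransGen.refl, fun x hx => ?_⟩
      simp at hx
      rw [hx]
    · obtain ⟨l', u, hlu⟩ := List.eq_nil_or_concat l |>.resolve_left hl
      rw [List.concat_eq_append] at hlu
      subst hlu
      have hpre : Trek E i u (l' ++ [u]) := by
        apply trek_prefix (l2 := [w]) (j := w)
        simpa using h
      have hPw : P w := hP w (by simp)
      have hPu : P u := hP u (by simp)
      have hedge := h.2.2.2.1 u w ⟨l', [], by simp⟩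
      have hPl : ∀ x ∈ l' ++ [u], P x := fun x hx => hP x (List.mem_append_left _ hx)
      rcases ih i u hpre hPl with ⟨h1, h2⟩ | ⟨t, h1, h2, ⟨s, h3, h4⟩, h5⟩
      · rcases hedge with h6 | h6
        · right
          refine ⟨u, h1, ReflTransGen.single ⟨h6, hPu, hPw⟩, ⟨u, ⟨l', by simp⟩, h6⟩, fun x hx => ?_⟩
          rw [List.mem_append, List.mem_singleton] at hx
          rcases hx with hx | rfl
          · exact Or.inl (h2 x hx)
          · exact Or.inr ReflTransGen.refl
        · left
          have h7 := ReflTransGen.head (r := fun a b => E a b ∧ P a ∧ P b) ⟨h6, hPw, hPu⟩ h1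
          refine ⟨h7, fun x hx => ?_⟩
          rw [List.mem_append, List.mem_singleton] at hx
          rcases hx with hx | rfl
          · exact h2 x hx
          · exact h7
      · rcases hedge with h6 | h6
        · right
          refine ⟨t, h1, h2.tail ⟨h6, hPu, hPw⟩, ⟨u, ⟨l', by simp⟩, h6⟩, fun x hx => ?_⟩
          rw [List.mem_append, List.mem_singleton] at hx
          rcases hx with hx | rfl
          · rcases h5 x hx with h7 | h7
            · exact Or.inl h7
            · exact Or.inr (h7.tail ⟨h6, hPu, hPw⟩)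
          · exact Or.inr ReflTransGen.refl
        · exfalso
          refine h.2.2.2.2 s u w ?_ ⟨h4, h6⟩
          obtain ⟨r, hr⟩ := h3
          refine ⟨r, [], ?_⟩
          rw [← hr]
          simp

theorem trek_common' {P : Fin n → Prop} {i j : Fin n} {l : List (Fin n)} (h : Trek E i j l)
    (hP : ∀ x ∈ l, P x) : ∃ t, ReflTransGen (fun a b => E a b ∧ P a ∧ P b) t i ∧
      ReflTransGen (fun a b => E a b ∧ P a ∧ P b) t j := by
  rcases trek_state l i j h hP with ⟨h1, -⟩ | ⟨t, h1, h2, -⟩
  · exact ⟨j, h1, ReflTransGen.refl⟩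
  · exact ⟨t, h1, h2⟩

theorem trek_common {i j : Fin n} {l : List (Fin n)} (h : Trek E i j l) :
    ∃ t, ReflTransGen E t i ∧ ReflTransGen E t j := by
  obtain ⟨t, h1, h2⟩ := trek_common' (P := fun _ => True) h fun _ _ => trivial
  exact ⟨t, rmono (fun _ _ h => h.1) h1, rmono (fun _ _ h => h.1) h2⟩

theorem trek_avoid {i j c : Fin n} {l : List (Fin n)} (h : Trek E i j l) (hc : c ∉ l) :
    ∃ t, Av E c t i ∧ Av E c t j :=
  trek_common' (P := fun x => x ≠ c) h fun _ hx hxc => hc (hxc ▸ hx)

theorem trek_anc {i j x : Fin n} {l : List (Fin n)} (h : Trek E i j l) (hx : x ∈ l) :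
    ReflTransGen E x i ∨ ReflTransGen E x j := by
  rcases trek_state (P := fun _ => True) l i j h fun _ _ => trivial with ⟨-, h1⟩ | ⟨t, -, -, -, h1⟩
  · exact Or.inl (rmono (fun _ _ h => h.1) (h1 x hx))
  · rcases h1 x hx with h2 | h2
    · exact Or.inl (rmono (fun _ _ h => h.1) h2)
    · exact Or.inr (rmono (fun _ _ h => h.1) h2)

end

end Pool.Agent.V11330.TG
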