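import Mathlib
import Pool.Agent.V11330.TG.Trek

/-!
# Unique shortest treks
-/

set_option autoImplicit false

namespace Pool.Agent.V11330.TG

open Relation

section

variable {n : ℕ} {E : Fin n → Fin n → Prop}

theorem reach_le (hlab : ∀ i j, E i j → i < j) {a b : Fin n} (h : ReflTransGen E a b) : a ≤ b := by
  induction h with
  | refl => exact le_rfl
  | tail _ h1 ih => exact ih.trans (hlab _ _ h1).le

theorem acyc_lab (hlab : ∀ i j, E i j → i < j) : ∀ v, ¬ TransGen E v v := by
  intro v h
  have h1 : ∀ {a b : Fin n}, TransGen E a b → a < b := by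
    intro a b h
    induction h with
    | single h => exact hlab _ _ h
    | tail _ h1 ih => exact ih.trans (hlab _ _ h1)
  exact lt_irrefl _ (h1 h)

open Classical in
theorem step_info {K : Type} [RCLike K] (hlab : ∀ i j, E i j → i < j) {i j : Fin n} (hij : i < j)
    (hne : ¬ E i j) (hcp : ClassProp (vanIdeal K E))
    (ht : ∃ t, ReflTransGen E t i ∧ ReflTransGen E t j) :
    ∃ c, E c j ∧ i ≠ c ∧ (∃ t, ReflTransGen E t i ∧ ReflTransGen E t c) ∧
      (∀ t, ¬ (Av E c t i ∧ Av E c t j)) ∧
      ∀ L ω, Par E L ω → covMat L ω i j * covMat L ω c c = covMat L ω i c * covMat L ω c j := by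
  have hE := acyc_lab hlab
  have hji : ¬ ReflTransGen E j i := fun h => absurd (reach_le hlab h) (not_le.2 hij)
  obtain ⟨c, hcj, k, hk, hrel⟩ := exists_quad i j hE hji hne hcp ht
  have hic : i ≠ c := by rintro rfl; exact hne hcj
  have hjc : ¬ ReflTransGen E j c := fun h => absurd (reach_le hlab h) (not_le.2 (hlab _ _ hcj))
  -- a common ancestor of `i` and `c`
  have hcom : ∃ t, ReflTransGen E t i ∧ ReflTransGen E t c := by
    have hA := adj_acyc hE (F := E) fun _ _ h => h
    obtain ⟨t, ht1, ht2⟩ := ht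
    have h1 := hrel (adj E) 1 (adj_par fun _ _ h => h)
    have h2 : 0 < covMat (adj E) 1 i j := cov_pos hA (adj_nonneg E) (adj_reach ht1) (adj_reach ht2)
    have h3 : 0 < covMat (adj E) 1 c c := cov_diag_pos hA (fun _ => one_pos) c
    have h4 : covMat (adj E) 1 i c ≠ 0 := by
      intro h
      rw [h, zero_mul, RCLike.ofReal_zero, mul_zero, RCLike.ofReal_eq_zero] at h1
      exact (mul_pos h2 h3).ne' h1
    obtain ⟨s, hs1, hs2⟩ := cov_ne_zero hA h4
    exact ⟨s, rmono (fun _ _ h => adj_ne h) hs1, rmono (fun _ _ h => adj_ne h) hs2⟩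
  refine ⟨c, hcj, hic, hcom, no_av hE hic hrel, ?_⟩
  -- the constant is one
  have hk1 : k = 1 := by
    set F : Fin n → Fin n → Prop := fun a b => E a b ∧ (b = j → a = c) with hF
    have hFE : ∀ u v, F u v → E u v := fun _ _ h => h.1
    have hA := adj_acyc hE hFE
    have hto : ∀ {a x : Fin n}, ¬ ReflTransGen E j x → ReflTransGen E a x → ReflTransGen F a x := by
      intro a x hx h
      induction h using ReflTransGen.head_induction_on with
      | refl => exact ReflTransGen.refl
      | head h3 h4 ih =>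
        refine ReflTransGen.head ⟨h3, ?_⟩ ih
        rintro rfl
        exact absurd h4 hx
    obtain ⟨t, ht1, ht2⟩ := hcom
    have h1 : 0 < covMat (adj F) 1 i c :=
      cov_pos hA (adj_nonneg F) (adj_reach (hto hji ht1)) (adj_reach (hto hjc ht2))
    have h2 : 0 < covMat (adj F) 1 c c := cov_diag_pos hA (fun _ => one_pos) c
    have hm : ∀ w, ¬ ReflTransGen E j w → covMat (adj F) 1 w j = covMat (adj F) 1 w c := by
      intro w hw
      rw [markov_par hE (adj_par hFE) hw, Finset.sum_eq_single ⟨c, hcj⟩]
      · have : adj F c j = 1 := by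
          unfold adj
          rw [if_pos ⟨hcj, fun _ => rfl⟩]
        rw [this, mul_one]
      · rintro ⟨p, hp⟩ - hpc
        have : adj F p j = 0 := by
          unfold adj
          rw [if_neg]
          rintro ⟨-, h⟩
          exact hpc (Subtype.ext (h rfl))
        rw [this, mul_zero]
      · intro h; exact absurd (Finset.mem_univ _) h
    have h3 := hrel _ _ (adj_par hFE)
    rw [hm i hji, hm c hjc] at h3
    have h4 : ((covMat (adj F) 1 i c * covMat (adj F) 1 c c : ℝ) : K) ≠ 0 := by
      rw [Ne, RCLike.ofReal_eq_zero]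
      exact (mul_pos h1 h2).ne'
    have h5 : 1 * ((covMat (adj F) 1 i c * covMat (adj F) 1 c c : ℝ) : K) =
        k * ((covMat (adj F) 1 i c * covMat (adj F) 1 c c : ℝ) : K) := by
      rw [one_mul]; exact h3
    exact (mul_right_cancel₀ h4 h5).symm
  intro L ω hp
  have h1 := hrel L ω hp
  rw [hk1, one_mul] at h1
  exact RCLike.ofReal_injective h1

/-- There is a unique trek of minimal length. -/
def UniqShort (E : Fin n → Fin n → Prop) (i j : Fin n) : Prop :=
  ∃ l, Shortest E i j l ∧ ∀ l', Shortest E i j l' → l' = l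

theorem uniqShort_symm {i j : Fin n} (h : UniqShort E i j) : UniqShort E j i := by
  obtain ⟨l, h1, h2⟩ := h
  refine ⟨l.reverse, shortest_reverse h1, fun l' hl' => ?_⟩
  rw [← h2 _ (shortest_reverse hl'), List.reverse_reverse]

theorem trek_self {i : Fin n} {l : List (Fin n)} (h : Trek E i i l) : l = [i] := by
  obtain ⟨h1, h2, h3, -, -⟩ := h
  cases l with
  | nil => simp at h1
  | cons a t =>
    simp at h1
    subst h1
    cases t with
    | nil => rfl
    | cons b s =>
      exfalso
      have h4 : a ∈ b :: s := by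
        rw [List.getLast?_cons_cons] at h2
        exact List.mem_of_getLast? h2
      exact (List.nodup_cons.1 h3).1 h4

theorem uniqShort_self (i : Fin n) : Shortest E i i [i] ∧ ∀ l', Shortest E i i l' → l' = [i] := by
  refine ⟨⟨trek_single i, fun l' hl' => ?_⟩, fun l' hl' => trek_self hl'.1⟩
  rw [trek_self hl']

theorem trek_pair {i j : Fin n} (hij : E i j) (hji : ¬ E j i) (hne : i ≠ j) : Trek E i j [i, j] :=
  trek_append (trek_single i) (by simpa using hne.symm) hij hji

theorem trek_len2 {i j : Fin n} (hne : i ≠ j) {l : List (Fin n)} (h : Trek E i j l) :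
    2 ≤ l.length ∧ (l.length ≤ 2 → l = [i, j]) := by
  obtain ⟨h1, h2, h3, -, -⟩ := h
  match l, h1, h2 with
  | [], h1, _ => simp at h1
  | [a], h1, h2 =>
    simp at h1 h2
    exact absurd (h1.symm.trans h2) hne
  | [a, b], h1, h2 =>
    simp at h1 h2
    subst h1 h2
    simp
  | a :: b :: c :: t, _, _ =>
    simp

theorem uniqShort_edge {i j : Fin n} (hij : E i j) (hji : ¬ E j i) (hne : i ≠ j) :
    Shortest E i j [i, j] ∧ ∀ l', Shortest E i j l' → l' = [i, j] := by
  refine ⟨⟨trek_pair hij hji hne, fun l' hl' => (trek_len2 hne hl').1⟩, fun l' hl' => ?_⟩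
  exact (trek_len2 hne hl'.1).2 (hl'.2 _ (trek_pair hij hji hne))

theorem uniqShort_step (hlab : ∀ i j, E i j → i < j) {i j c : Fin n} (hij : i < j) (hcj : E c j)
    (hav : ∀ t, ¬ (Av E c t i ∧ Av E c t j)) {l : List (Fin n)} (hl : Shortest E i c l)
    (hu : ∀ l', Shortest E i c l' → l' = l) :
    Shortest E i j (l ++ [j]) ∧ ∀ l', Shortest E i j l' → l' = l ++ [j] := by
  have hcj' := hlab _ _ hcj
  have hjl : j ∉ l := by
    intro h
    rcases trek_anc hl.1 h with h1 | h1
    · exact absurd (reach_le hlab h1) (not_le.2 hij)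
    · exact absurd (reach_le hlab h1) (not_le.2 hcj')
  have hjc : ¬ E j c := fun h => lt_asymm hcj' (hlab _ _ h)
  have h0 : Trek E i j (l ++ [j]) := trek_append hl.1 hjl hcj hjc
  have hmain : ∀ l', Trek E i j l' → (l ++ [j]).length ≤ l'.length ∧
      (l'.length ≤ (l ++ [j]).length → l' = l ++ [j]) := by
    intro l' hl'
    have hc : c ∈ l' := by
      by_contra hc
      obtain ⟨t, ht⟩ := trek_avoid hl' hc
      exact hav t ht
    obtain ⟨s, t, rfl⟩ := List.append_of_mem hc
    have h1 : Trek E i c (s ++ [c]) := trek_prefix hl'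
    have h2 := hl.2 _ h1
    have ht : t ≠ [] := by
      rintro rfl
      have h3 := hl'.2.1
      simp at h3
      exact hcj'.ne h3
    have ht' : 1 ≤ t.length := List.length_pos_iff.2 ht
    simp only [List.length_append, List.length_cons, List.length_nil] at h2 ⊢
    refine ⟨by omega, fun h3 => ?_⟩
    have h4 : t.length = 1 := by omega
    obtain ⟨x, rfl⟩ := List.length_eq_one_iff.1 h4
    have h5 : x = j := by
      have h3 := hl'.2.1
      simpa using h3
    subst h5
    have h6 : s ++ [c] = l := by
      apply hu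
      refine ⟨h1, fun l'' hl'' => ?_⟩
      have h7 := hl.2 _ hl''
      simp only [List.length_append, List.length_cons, List.length_nil] at h3 ⊢
      omega
    rw [← h6]
    simp
  exact ⟨⟨h0, fun l' hl' => (hmain l' hl').1⟩, fun l' hl' => (hmain l' hl'.1).2 (hl'.2 _ h0)⟩

theorem uniqShort_all {K : Type} [RCLike K] (hlab : ∀ i j, E i j → i < j)
    (hcp : ClassProp (vanIdeal K E)) : ∀ N : ℕ, ∀ i j : Fin n, i.val + j.val ≤ N →
      (∃ t, ReflTransGen E t i ∧ ReflTransGen E t j) → UniqShort E i j := by
  intro N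
  induction N with
  | zero =>
    intro i j hN _
    have : i = j := by ext; omega
    subst this
    exact ⟨_, uniqShort_self i⟩
  | succ N ih =>
    have key : ∀ i j : Fin n, i < j → i.val + j.val ≤ N + 1 →
      (∃ t, ReflTransGen E t i ∧ ReflTransGen E t j) → UniqShort E i j := by
      intro i j hij hN ht
      by_cases hE : E i j
      · exact ⟨_, uniqShort_edge hE (fun h => lt_asymm hij (hlab _ _ h)) hij.ne⟩
      · obtain ⟨c, hcj, -, hcom, hav, -⟩ := step_info hlab hij hE hcp ht
        have hcj' := hlab _ _ hcj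
        obtain ⟨l, hl, hu⟩ := ih i c (by have : c.val < j.val := hcj'; omega) hcom
        exact ⟨_, uniqShort_step hlab hij hcj hav hl hu⟩
    intro i j hN ht
    rcases lt_trichotomy i j with h | h | h
    · exact key i j h hN ht
    · subst h
      exact ⟨_, uniqShort_self i⟩
    · refine uniqShort_symm (key j i h (by omega) ?_)
      obtain ⟨t, h1, h2⟩ := ht
      exact ⟨t, h2, h1⟩

end

end Pool.Agent.V11330.TG
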