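import Mathlib
import Pool.Agent.V11330.TG.Uniq

/-!
# The shortest trek map
-/

set_option autoImplicit false

namespace Pool.Agent.V11330.TG

open Relation MvPolynomial Finset

section

variable {n : ℕ} {E : Fin n → Fin n → Prop}

open Classical in
/-- the set of the edges of the path `l`, oriented as in the graph -/
noncomputable def pe (E : Fin n → Fin n → Prop) (l : List (Fin n)) :
    Finset {e : Fin n × Fin n // E e.1 e.2} :=
  univ.filter fun e => [e.1.1, e.1.2] <:+: l ∨ [e.1.2, e.1.1] <:+: l

open Classical in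
/-- the vertices of the path `l` into which no edge of the path points: for a trek, this is the set
whose only element is the top vertex -/
noncomputable def tp (E : Fin n → Fin n → Prop) (l : List (Fin n)) : Finset (Fin n) :=
  univ.filter fun v => v ∈ l ∧ ∀ e ∈ pe E l, e.1.2 ≠ v

/-- the variables `a_i` and `λ_kl`, where `k → l` is an edge -/
abbrev PV (E : Fin n → Fin n → Prop) : Type := Fin n ⊕ {e : Fin n × Fin n // E e.1 e.2}

/-- the monomial `a_top(P) * ∏_{k → l ∈ P} λ_kl` of a trek -/
noncomputable def mon (E : Fin n → Fin n → Prop) (l : List (Fin n)) : MvPolynomial (PV E) ℂ :=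
  (∏ v ∈ tp E l, X (Sum.inl v)) * ∏ e ∈ pe E l, X (Sum.inr e)

theorem mem_pe {l : List (Fin n)} {e : {e : Fin n × Fin n // E e.1 e.2}} :
    e ∈ pe E l ↔ [e.1.1, e.1.2] <:+: l ∨ [e.1.2, e.1.1] <:+: l := by
  classical
  unfold pe
  rw [mem_filter]
  simp

theorem mem_tp {l : List (Fin n)} {v : Fin n} :
    v ∈ tp E l ↔ v ∈ l ∧ ∀ e ∈ pe E l, e.1.2 ≠ v := by
  classical
  unfold tp
  rw [mem_filter]
  simp

theorem mon_isMonomial (l : List (Fin n)) : ∃ m, mon E l = monomial m 1 := by
  have h1 : ∀ {ι : Type} (s : Finset ι) (f : ι → PV E),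
      ∃ m, (∏ x ∈ s, (X (f x) : MvPolynomial (PV E) ℂ)) = monomial m 1 := by
    intro ι s f
    refine ⟨∑ x ∈ s, Finsupp.single (f x) 1, ?_⟩
    rw [monomial_sum_one]
    rfl
  obtain ⟨m1, hm1⟩ := h1 (tp E l) Sum.inl
  obtain ⟨m2, hm2⟩ := h1 (pe E l) Sum.inr
  refine ⟨m1 + m2, ?_⟩
  unfold mon
  rw [hm1, hm2, monomial_mul, one_mul]

theorem mon_ne_zero (l : List (Fin n)) : mon E l ≠ 0 := by
  obtain ⟨m, hm⟩ := mon_isMonomial (E := E) l
  rw [hm, Ne, monomial_eq_zero]
  exact one_ne_zero

theorem pe_reverse (l : List (Fin n)) : pe E l.reverse = pe E l := by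
  ext e
  rw [mem_pe, mem_pe]
  have h1 : ∀ x y : Fin n, [x, y] <:+: l.reverse ↔ [y, x] <:+: l := by
    intro x y
    rw [← List.reverse_infix]
    simp
  rw [h1, h1, or_comm]

theorem tp_reverse (l : List (Fin n)) : tp E l.reverse = tp E l := by
  ext v
  rw [mem_tp, mem_tp, pe_reverse, List.mem_reverse]

theorem mon_reverse (l : List (Fin n)) : mon E l.reverse = mon E l := by
  unfold mon
  rw [pe_reverse, tp_reverse]

theorem mon_single (i : Fin n) : mon E [i] = X (Sum.inl i) := by
  have h1 : pe E [i] = ∅ := by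
    ext e
    rw [mem_pe]
    simp only [notMem_empty, iff_false, not_or]
    constructor <;> · intro h; have := h.length_le; simp at this
  have h2 : tp E [i] = {i} := by
    ext v
    rw [mem_tp, h1]
    simp
  unfold mon
  rw [h1, h2]
  simp

theorem mon_append {i c j : Fin n} {l : List (Fin n)} (hl : Trek E i c l) (hj : j ∉ l)
    (hcj : E c j) (hjc : ¬ E j c) :
    mon E (l ++ [j]) = mon E l * X (Sum.inr ⟨(c, j), hcj⟩) := by
  classical
  have hlast := hl.2.1
  have hmemj : (⟨(c, j), hcj⟩ : {e : Fin n × Fin n // E e.1 e.2}) ∈ pe E (l ++ [j]) := by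
    rw [mem_pe]
    left
    obtain ⟨s, hs⟩ := List.getLast?_eq_some_iff.1 hlast
    exact ⟨s, [], by rw [hs]; simp⟩
  have h1 : pe E (l ++ [j]) = insert ⟨(c, j), hcj⟩ (pe E l) := by
    ext e
    rw [mem_insert]
    constructor
    · intro he
      rw [mem_pe] at he
      rcases he with he | he
      · rcases infix2_concat he with h | ⟨h, h'⟩
        · right
          rw [mem_pe]
          exact Or.inl h
        · left
          rw [hlast] at h'
          have h'' := Option.some.inj h'
          exact Subtype.ext (Prod.ext h''.symm h)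
      · rcases infix2_concat he with h | ⟨h, h'⟩
        · right
          rw [mem_pe]
          exact Or.inr h
        · exfalso
          rw [hlast] at h'
          have h'' := Option.some.inj h'
          apply hjc
          have h3 := e.2
          rw [h, ← h''] at h3
          exact h3
    · rintro (rfl | h)
      · exact hmemj
      · rw [mem_pe] at h ⊢
        have h2 : l <:+: l ++ [j] := (List.prefix_append l [j]).isInfix
        exact h.imp (fun h => h.trans h2) (fun h => h.trans h2)
  have h2 : (⟨(c, j), hcj⟩ : {e : Fin n × Fin n // E e.1 e.2}) ∉ pe E l := by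
    intro h
    rw [mem_pe] at h
    apply hj
    rcases h with h | h
    · exact h.subset (by simp)
    · exact h.subset (by simp)
  have h3 : tp E (l ++ [j]) = tp E l := by
    ext v
    rw [mem_tp, mem_tp]
    constructor
    · rintro ⟨h4, h5⟩
      have h6 := h5 _ hmemj
      refine ⟨?_, fun e he => h5 e ?_⟩
      · rw [List.mem_append, List.mem_singleton] at h4
        rcases h4 with h4 | h4
        · exact h4
        · exact absurd h4.symm h6
      · rw [h1]; exact mem_insert_of_mem he
    · rintro ⟨h4, h5⟩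
      refine ⟨List.mem_append_left _ h4, fun e he => ?_⟩
      rw [h1, mem_insert] at he
      rcases he with rfl | he
      · rintro rfl
        exact hj h4
      · exact h5 e he
  unfold mon
  rw [h1, h3, prod_insert h2]
  ring

theorem mon_edge {i j : Fin n} (hij : E i j) (hji : ¬ E j i) (hne : i ≠ j) :
    mon E [i, j] = X (Sum.inl i) * X (Sum.inr ⟨(i, j), hij⟩) := by
  have h1 := mon_append (trek_single (E := E) i) (by simpa using hne.symm) hij hji
  rw [mon_single] at h1
  exact h1

open Classical in
/-- the image of the variable `σ_ij` under the shortest trek map -/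
noncomputable def psiVar (E : Fin n → Fin n → Prop) (i j : Fin n) : MvPolynomial (PV E) ℂ :=
  if i = j then X (Sum.inl i) else
    if h : ∃ l, Shortest E i j l then mon E (Classical.choose h) else 0

/-- the shortest trek map -/
noncomputable def psi (E : Fin n → Fin n → Prop) : MvPolynomial (Idx n) ℂ →ₐ[ℂ] MvPolynomial (PV E) ℂ :=
  MvPolynomial.aeval fun p => psiVar E p.1.1 p.1.2

theorem psiVar_self (i : Fin n) : psiVar E i i = X (Sum.inl i) := by
  unfold psiVar
  rw [if_pos rfl]

theorem psiVar_eq {i j : Fin n} {l : List (Fin n)} (h : Shortest E i j l)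
    (hu : ∀ l', Shortest E i j l' → l' = l) : psiVar E i j = mon E l := by
  unfold psiVar
  split_ifs with h1 h2
  · subst h1
    rw [trek_self h.1, mon_single]
  · rw [hu _ (Classical.choose_spec h2)]
  · exact absurd ⟨l, h⟩ h2

theorem psiVar_none {i j : Fin n} (h : ¬ ∃ t, ReflTransGen E t i ∧ ReflTransGen E t j) :
    psiVar E i j = 0 := by
  have hne : i ≠ j := by
    rintro rfl
    exact h ⟨i, ReflTransGen.refl, ReflTransGen.refl⟩
  have h1 : ¬ ∃ l, Shortest E i j l := by
    rintro ⟨l, hl⟩
    exact h (trek_common hl.1)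
  unfold psiVar
  rw [if_neg hne, dif_neg h1]

/-- every pair of vertices with a common ancestor is joined by a unique shortest trek -/
def AllUniq (E : Fin n → Fin n → Prop) : Prop :=
  ∀ i j, (∃ t, ReflTransGen E t i ∧ ReflTransGen E t j) → UniqShort E i j

theorem psiVar_symm (hU : AllUniq E) (i j : Fin n) : psiVar E i j = psiVar E j i := by
  by_cases h : ∃ t, ReflTransGen E t i ∧ ReflTransGen E t j
  · obtain ⟨l, h1, h2⟩ := hU i j h
    rw [psiVar_eq h1 h2, psiVar_eq (shortest_reverse h1) (l := l.reverse), mon_reverse]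
    intro l' hl'
    rw [← h2 _ (shortest_reverse hl'), List.reverse_reverse]
  · rw [psiVar_none h, psiVar_none]
    rintro ⟨t, h1, h2⟩
    exact h ⟨t, h2, h1⟩

theorem psi_sg (hU : AllUniq E) (i j : Fin n) : psi E (X (sg i j)) = psiVar E i j := by
  unfold psi
  rw [aeval_X]
  unfold sg
  split_ifs
  · rfl
  · exact psiVar_symm hU j i

theorem psiVar_edge (hlab : ∀ i j, E i j → i < j) {i j : Fin n} (hij : E i j) :
    psiVar E i j = X (Sum.inl i) * X (Sum.inr ⟨(i, j), hij⟩) := by
  have hlt := hlab _ _ hij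
  have hji : ¬ E j i := fun h => lt_asymm hlt (hlab _ _ h)
  obtain ⟨h1, h2⟩ := uniqShort_edge hij hji hlt.ne
  rw [psiVar_eq h1 h2, mon_edge hij hji hlt.ne]

theorem psi_rel (hlab : ∀ i j, E i j → i < j) (hU : AllUniq E) {i j c : Fin n} (hij : i < j)
    (hcj : E c j) (hcom : ∃ t, ReflTransGen E t i ∧ ReflTransGen E t c)
    (hav : ∀ t, ¬ (Av E c t i ∧ Av E c t j)) :
    psi E (X (sg i j) * X (sg c c) - X (sg i c) * X (sg c j)) = 0 := by
  obtain ⟨l, h1, h2⟩ := hU i c hcom
  obtain ⟨h3, h4⟩ := uniqShort_step hlab hij hcj hav h1 h2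
  have hlt := hlab _ _ hcj
  have hjc : ¬ E j c := fun h => lt_asymm hlt (hlab _ _ h)
  have hjl : j ∉ l := by
    intro h
    rcases trek_anc h1.1 h with h1 | h1
    · exact absurd (reach_le hlab h1) (not_le.2 hij)
    · exact absurd (reach_le hlab h1) (not_le.2 hlt)
  rw [map_sub, map_mul, map_mul, psi_sg hU, psi_sg hU, psi_sg hU, psi_sg hU, psiVar_eq h3 h4,
    psiVar_eq h1 h2, psiVar_self, psiVar_edge hlab hcj, mon_append h1.1 hjl hcj hjc]
  ring

end

end Pool.Agent.V11330.TG
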