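import Mathlib
import Pool.Agent.V11330.TG.Psi
import Pool.Agent.V11330.TG.Lim
import Pool.Agent.V11330.TG.BinMon

/-!
# Toric Gaussian DAG ideals are shortest trek ideals
-/

set_option autoImplicit false

namespace Pool.Agent.V11330.TG

open Relation MvPolynomial

/-- An ideal with the class property has no nonzero polynomial in the variables of a set such that
no monomial is in the ideal and different monomials are not proportional modulo the ideal. -/
theorem inj_of_class {S : Type} {U : Type} (ι : U → S) {I : Ideal (MvPolynomial S ℂ)}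
    (hI : ClassProp I) (h0 : ∀ a : U →₀ ℕ, rename ι (monomial a (1 : ℂ)) ∉ I)
    (h1 : ∀ (a b : U →₀ ℕ) (k : ℂ), k ≠ 0 →
      rename ι (monomial a (1 : ℂ)) - rename ι (monomial b k) ∈ I → a = b)
    (g : MvPolynomial U ℂ) (hg : rename ι g ∈ I) : g = 0 := by
  by_contra hne
  obtain ⟨a, ha⟩ := Finset.nonempty_iff_ne_empty.2 (support_eq_empty.not.2 hne)
  have h2 : ∑ m ∈ g.support, monomial (m.mapDomain ι) (g.coeff m) ∈ I := by
    have h3 : rename ι g = ∑ m ∈ g.support, monomial (m.mapDomain ι) (g.coeff m) := by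
      conv_lhs => rw [g.as_sum, map_sum]
      exact Finset.sum_congr rfl fun m _ => rename_monomial _ _ _
    rwa [h3] at hg
  rcases hI _ _ _ _ h2 a ha (mem_support_iff.1 ha) with h3 | ⟨b, -, hb, k, hk, h3⟩
  · apply h0 a
    rw [rename_monomial]
    exact h3
  · apply hb
    symm
    apply h1 a b k hk
    rw [rename_monomial, rename_monomial]
    exact h3

section

variable {n : ℕ} {E : Fin n → Fin n → Prop}

/-- the index type of the variables of vertices and edges -/
abbrev UT (E : Fin n → Fin n → Prop) : Type := {p : Idx n // UV E p}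

theorem sg_symm (i j : Fin n) : sg i j = sg j i := by
  unfold sg
  rcases lt_trichotomy i j with h | h | h
  · rw [dif_pos h.le, dif_neg (not_le.2 h)]
  · subst h; rfl
  · rw [dif_neg (not_le.2 h), dif_pos h.le]

open Classical in
theorem hom_UT (χ : MvPolynomial (Idx n) ℂ →ₐ[ℂ] ℂ) (x : UT E → ℝ)
    (hχ : ∀ u : UT E, χ (X u.1) = (x u : ℂ)) (a : UT E →₀ ℕ) (k : ℂ) :
    χ (rename Subtype.val (monomial a k)) = k * ((∏ u, x u ^ a u : ℝ) : ℂ) := by
  have h1 : ∀ f : MvPolynomial (UT E) ℂ, χ (rename Subtype.val f) =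
      MvPolynomial.aeval (fun u => (x u : ℂ)) f := by
    intro f
    have h2 : χ.comp (rename (Subtype.val : UT E → Idx n)) = MvPolynomial.aeval (fun u => (x u : ℂ)) := by
      apply MvPolynomial.algHom_ext
      intro u
      rw [AlgHom.comp_apply, rename_X, hχ, aeval_X]
    rw [← h2]
    rfl
  rw [h1, aeval_monomial, Finsupp.prod_fintype _ _ (fun _ => pow_zero _)]
  rw [Complex.ofReal_prod]
  simp only [Complex.ofReal_pow]
  rfl

theorem norm_rel {x y : ℝ} {k : ℂ} (hx : 0 ≤ x) (hy : 0 ≤ y) (h : 1 * (x : ℂ) - k * (y : ℂ) = 0) :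
    x = ‖k‖ * y := by
  rw [sub_eq_zero, one_mul] at h
  have h1 := congrArg norm h
  rw [norm_mul, Complex.norm_real, Complex.norm_real, Real.norm_of_nonneg hx,
    Real.norm_of_nonneg hy] at h1
  exact h1

theorem van_UT (hlab : ∀ i j, E i j → i < j) (hcp : ClassProp (vanIdeal ℂ E))
    (g : MvPolynomial (UT E) ℂ) (hg : rename Subtype.val g ∈ vanIdeal ℂ E) : g = 0 := by
  classical
  have hE := acyc_lab hlab
  have hχ : ∀ L ω, ∀ u : UT E, (MvPolynomial.aeval (pt ℂ L ω) : MvPolynomial (Idx n) ℂ →ₐ[ℂ] ℂ)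
      (X u.1) = ((covMat L ω u.1.1.1 u.1.1.2 : ℝ) : ℂ) := by
    intro L ω u
    rw [aeval_X]
    rfl
  have hmem : ∀ f ∈ vanIdeal ℂ E, ∀ L ω, Par E L ω →
      (MvPolynomial.aeval (pt ℂ L ω) : MvPolynomial (Idx n) ℂ →ₐ[ℂ] ℂ) f = 0 := by
    intro f hf L ω hp
    have := hf L ω hp
    rw [MvPolynomial.aeval_eq_eval]
    exact this
  have hpos : ∀ L ω, Par E L ω → (∀ u v, 0 ≤ L u v) → ∀ c : UT E →₀ ℕ,
      0 ≤ ∏ u, covMat L ω u.1.1.1 u.1.1.2 ^ c u := by
    intro L ω hp hL c
    refine Finset.prod_nonneg fun u _ => pow_nonneg ?_ _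
    rw [covMat_apply]
    refine Finset.sum_nonneg fun t _ => mul_nonneg (hp.2 t).le ?_
    exact mul_nonneg (inv_nonneg' (acyc_of hE hp.1) hL _ _) (inv_nonneg' (acyc_of hE hp.1) hL _ _)
  refine inj_of_class Subtype.val hcp ?_ ?_ g hg
  · intro a ha
    have h1 := hmem _ ha (adj E) 1 (adj_par fun _ _ h => h)
    rw [hom_UT _ _ (hχ _ _), one_mul] at h1
    have h2 : 0 < ∏ u : UT E, covMat (adj E) 1 u.1.1.1 u.1.1.2 ^ a u := by
      refine Finset.prod_pos fun u _ => pow_pos ?_ _
      have hA := adj_acyc hE (F := E) fun _ _ h => h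
      rcases u.2 with h | h
      · rw [← h]
        exact cov_diag_pos hA (fun _ => one_pos) _
      · exact cov_pos hA (adj_nonneg E) (adj_reach ReflTransGen.refl)
          (adj_reach (ReflTransGen.single h))
    rw [Complex.ofReal_eq_zero] at h1
    exact h2.ne' h1
  · intro a b k hk hab
    have h1 : ⇑a = ⇑b := by
      refine exp_eq hlab hE (κ := ‖k‖) (norm_pos_iff.2 hk) ?_
      intro L ω hp hL
      have h1 := hmem _ hab L ω hp
      rw [map_sub, hom_UT _ _ (hχ _ _), hom_UT _ _ (hχ _ _)] at h1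
      exact norm_rel (hpos L ω hp hL a) (hpos L ω hp hL b) h1
    exact DFunLike.coe_injective h1

theorem uv_diag (i : Fin n) : UV E (sg i i) := by
  left
  unfold sg
  rw [dif_pos le_rfl]

theorem uv_edge (hlab : ∀ i j, E i j → i < j) {i j : Fin n} (h : E i j) : UV E (sg i j) := by
  right
  unfold sg
  rw [dif_pos (hlab _ _ h).le]
  exact h

theorem psi_isTerm (p : Idx n) : psi E (X p) = 0 ∨ ∃ m, psi E (X p) = monomial m 1 := by
  unfold psi
  rw [aeval_X]
  unfold psiVar
  split_ifs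
  · right
    exact ⟨Finsupp.single (Sum.inl p.1.1) 1, rfl⟩
  · right
    exact mon_isMonomial _
  · left; rfl

theorem psi_class : ClassProp (RingHom.ker (psi E)) := by
  apply classProp_ker
  intro s
  rcases psi_isTerm (E := E) s with h | ⟨m, h⟩
  · exact ⟨0, 0, by rw [h, monomial_zero]⟩
  · exact ⟨m, 1, h⟩

theorem psi_UT (hlab : ∀ i j, E i j → i < j)
    (g : MvPolynomial (UT E) ℂ) (hg : rename Subtype.val g ∈ RingHom.ker (psi E)) : g = 0 := by
  classical
  -- evaluation
  have hev : ∀ x : UT E → ℝ, (∀ u, 0 < x u) → ∃ χ : MvPolynomial (PV E) ℂ →ₐ[ℂ] ℂ,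
      ∀ u : UT E, (χ.comp (psi E)) (X u.1) = (x u : ℂ) := by
    intro x hx
    refine ⟨MvPolynomial.aeval (Sum.elim (fun i => ((x ⟨sg i i, uv_diag i⟩ : ℝ) : ℂ))
      (fun e => ((x ⟨sg e.1.1 e.1.2, uv_edge hlab e.2⟩ : ℝ) : ℂ) /
        ((x ⟨sg e.1.1 e.1.1, uv_diag _⟩ : ℝ) : ℂ))), fun u => ?_⟩
    rw [AlgHom.comp_apply]
    have h1 : psi E (X u.1) = psiVar E u.1.1.1 u.1.1.2 := by
      unfold psi
      rw [aeval_X]
    rw [h1]
    rcases u.2 with h | h
    · rw [← h, psiVar_self, aeval_X, Sum.elim_inl]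
      congr 2
      apply Subtype.ext
      change sg u.1.1.1 u.1.1.1 = u.1
      conv_rhs => rw [← sg_self u.1]
      rw [← h]
    · rw [psiVar_edge hlab h, map_mul, aeval_X, aeval_X, Sum.elim_inl, Sum.elim_inr]
      rw [mul_div_cancel₀]
      · congr 2
        apply Subtype.ext
        exact sg_self u.1
      · rw [Ne, Complex.ofReal_eq_zero]
        exact (hx _).ne'
  refine inj_of_class Subtype.val psi_class ?_ ?_ g hg
  · intro a ha
    obtain ⟨χ, hχ⟩ := hev (fun _ => 1) fun _ => one_pos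
    have h1 := hom_UT _ _ hχ a 1
    rw [AlgHom.comp_apply, (RingHom.mem_ker).1 ha, map_zero] at h1
    simp at h1
  · intro a b k hk hab
    have h1 : ⇑a = ⇑b := by
      refine exp_eq_of_val (κ := ‖k‖) fun z hz => ?_
      obtain ⟨χ, hχ⟩ := hev z hz
      have h1 : (χ.comp (psi E)) (rename Subtype.val (monomial a (1 : ℂ)) -
          rename Subtype.val (monomial b k)) = 0 := by
        rw [AlgHom.comp_apply, (RingHom.mem_ker).1 hab, map_zero]
      rw [map_sub, hom_UT _ _ hχ, hom_UT _ _ hχ] at h1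
      exact norm_rel (Finset.prod_nonneg fun u _ => pow_nonneg (hz u).le _)
        (Finset.prod_nonneg fun u _ => pow_nonneg (hz u).le _) h1
    exact DFunLike.coe_injective h1

/-- the products of the variables `σ_ii` -/
noncomputable def MD (n : ℕ) : Submonoid (MvPolynomial (Idx n) ℂ) :=
  Submonoid.closure (Set.range fun i : Fin n => X (sg i i))

/-- the subalgebra of the variables of vertices and edges -/
noncomputable def SU (E : Fin n → Fin n → Prop) : Subalgebra ℂ (MvPolynomial (Idx n) ℂ) :=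
  (rename (Subtype.val : UT E → Idx n) : MvPolynomial (UT E) ℂ →ₐ[ℂ] MvPolynomial (Idx n) ℂ).range

theorem X_mem_SU {p : Idx n} (h : UV E p) : X p ∈ SU E := by
  refine ⟨X ⟨p, h⟩, ?_⟩
  change rename Subtype.val (X ⟨p, h⟩) = X p
  rw [rename_X]

theorem MD_le_SU {D : MvPolynomial (Idx n) ℂ} (hD : D ∈ MD n) : D ∈ SU E := by
  have h1 : MD n ≤ (SU E).toSubmonoid := by
    unfold MD
    rw [Submonoid.closure_le]
    rintro _ ⟨i, rfl⟩
    exact X_mem_SU (uv_diag i)
  exact h1 hD

/-- `f` is a polynomial in the variables of vertices and edges, up to a product of the variables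
`σ_ii` and modulo `J` -/
def QQ (E : Fin n → Fin n → Prop) (J : Ideal (MvPolynomial (Idx n) ℂ))
    (f : MvPolynomial (Idx n) ℂ) : Prop :=
  ∃ D ∈ MD n, ∃ g ∈ SU E, D * f - g ∈ J

theorem QQ_of_SU {J : Ideal (MvPolynomial (Idx n) ℂ)} {f : MvPolynomial (Idx n) ℂ} (h : f ∈ SU E) :
    QQ E J f :=
  ⟨1, one_mem _, f, h, by rw [one_mul, sub_self]; exact J.zero_mem⟩

theorem QQ_add {J : Ideal (MvPolynomial (Idx n) ℂ)} {f f' : MvPolynomial (Idx n) ℂ}
    (h : QQ E J f) (h' : QQ E J f') : QQ E J (f + f') := by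
  obtain ⟨D, hD, g, hg, h1⟩ := h
  obtain ⟨D', hD', g', hg', h1'⟩ := h'
  refine ⟨D * D', mul_mem hD hD', D' * g + D * g',
    add_mem (mul_mem (MD_le_SU hD') hg) (mul_mem (MD_le_SU hD) hg'), ?_⟩
  have h2 : D * D' * (f + f') - (D' * g + D * g') = D' * (D * f - g) + D * (D' * f' - g') := by ring
  rw [h2]
  exact J.add_mem (J.mul_mem_left _ h1) (J.mul_mem_left _ h1')

theorem QQ_mul {J : Ideal (MvPolynomial (Idx n) ℂ)} {f f' : MvPolynomial (Idx n) ℂ}
    (h : QQ E J f) (h' : QQ E J f') : QQ E J (f * f') := by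
  obtain ⟨D, hD, g, hg, h1⟩ := h
  obtain ⟨D', hD', g', hg', h1'⟩ := h'
  refine ⟨D * D', mul_mem hD hD', g * g', mul_mem hg hg', ?_⟩
  have h2 : D * D' * (f * f') - (g * g') = (D' * f') * (D * f - g) + g * (D' * f' - g') := by ring
  rw [h2]
  exact J.add_mem (J.mul_mem_left _ h1) (J.mul_mem_left _ h1')

theorem QQ_of_mul {J : Ideal (MvPolynomial (Idx n) ℂ)} {f h : MvPolynomial (Idx n) ℂ} {c : Fin n}
    (hh : QQ E J h) (hf : f * X (sg c c) - h ∈ J) : QQ E J f := by
  obtain ⟨D, hD, g, hg, h1⟩ := hh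
  refine ⟨D * X (sg c c), mul_mem hD (Submonoid.subset_closure ⟨c, rfl⟩), g, hg, ?_⟩
  have h2 : D * X (sg c c) * f - g = D * (f * X (sg c c) - h) + (D * h - g) := by ring
  rw [h2]
  exact J.add_mem (J.mul_mem_left _ hf) h1

theorem QQ_of_mem {J : Ideal (MvPolynomial (Idx n) ℂ)} {f : MvPolynomial (Idx n) ℂ} (h : f ∈ J) :
    QQ E J f :=
  ⟨1, one_mem _, 0, zero_mem _, by rw [one_mul, sub_zero]; exact h⟩

theorem allUniq (hlab : ∀ i j, E i j → i < j) (hcp : ClassProp (vanIdeal ℂ E)) : AllUniq E :=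
  fun i j h => uniqShort_all hlab hcp (i.val + j.val) i j le_rfl h

theorem QQ_var (hlab : ∀ i j, E i j → i < j) (hcp : ClassProp (vanIdeal ℂ E)) :
    ∀ N : ℕ, ∀ i j : Fin n, i.val + j.val ≤ N →
      QQ E (vanIdeal ℂ E ⊓ RingHom.ker (psi E)) (X (sg i j)) := by
  have hE := acyc_lab hlab
  have hU := allUniq hlab hcp
  intro N
  induction N with
  | zero =>
    intro i j hN
    have : i = j := by ext; omega
    subst this
    exact QQ_of_SU (X_mem_SU (uv_diag _))
  | succ N ih =>
    have key : ∀ i j : Fin n, i < j → i.val + j.val ≤ N + 1 →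
      QQ E (vanIdeal ℂ E ⊓ RingHom.ker (psi E)) (X (sg i j)) := by
      intro i j hij hN
      by_cases hEij : E i j
      · exact QQ_of_SU (X_mem_SU (uv_edge hlab hEij))
      by_cases ht : ∃ t, ReflTransGen E t i ∧ ReflTransGen E t j
      · obtain ⟨c, hcj, -, hcom, hav, hrel⟩ := step_info hlab hij hEij hcp ht
        have hcj' := hlab _ _ hcj
        have h1 := ih i c (by have : c.val < j.val := hcj'; omega)
        refine QQ_of_mul (c := c) (QQ_mul h1 (QQ_of_SU (X_mem_SU (uv_edge hlab hcj)))) ?_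
        refine ⟨?_, psi_rel hlab hU hij hcj hcom hav⟩
        intro L ω hp
        rw [map_sub, map_mul, map_mul, eval_X, eval_X, eval_X, eval_X, pt_sg, pt_sg, pt_sg, pt_sg]
        rw [← RCLike.ofReal_mul, ← RCLike.ofReal_mul, hrel L ω hp, sub_self]
      · refine QQ_of_mem ⟨?_, ?_⟩
        · intro L ω hp
          rw [eval_X, pt_sg]
          have h1 : covMat L ω i j = 0 := by
            by_contra h
            obtain ⟨s, hs1, hs2⟩ := cov_ne_zero (acyc_of hE hp.1) h
            have hm : ∀ a b, L a b ≠ 0 → E a b := by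
              intro a b hab
              by_contra h'
              exact hab (hp.1 a b h')
            exact ht ⟨s, rmono hm hs1, rmono hm hs2⟩
          rw [h1, RCLike.ofReal_zero]
        · change psi E (X (sg i j)) = 0
          rw [psi_sg hU, psiVar_none ht]
    intro i j hN
    rcases lt_trichotomy i j with h | h | h
    · exact key i j h hN
    · subst h
      exact QQ_of_SU (X_mem_SU (uv_diag _))
    · rw [sg_symm]
      exact key j i h (by omega)

theorem QQ_all (hlab : ∀ i j, E i j → i < j) (hcp : ClassProp (vanIdeal ℂ E))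
    (f : MvPolynomial (Idx n) ℂ) : QQ E (vanIdeal ℂ E ⊓ RingHom.ker (psi E)) f := by
  induction f using MvPolynomial.induction_on with
  | C a => exact QQ_of_SU ((SU E).algebraMap_mem a)
  | add p q hp hq => exact QQ_add hp hq
  | mul_X p i hp =>
    refine QQ_mul hp ?_
    rw [← sg_self i]
    exact QQ_var hlab hcp _ _ _ le_rfl

/-- The main theorem. -/
theorem van_eq_ker (hlab : ∀ i j, E i j → i < j) (hcp : ClassProp (vanIdeal ℂ E))
    (hprime : (vanIdeal ℂ E).IsPrime) : vanIdeal ℂ E = RingHom.ker (psi E) := by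
  have hE := acyc_lab hlab
  have hprime' : (RingHom.ker (psi E)).IsPrime := RingHom.ker_isPrime _
  have hgen : ∀ I I' : Ideal (MvPolynomial (Idx n) ℂ), I'.IsPrime →
      vanIdeal ℂ E ⊓ RingHom.ker (psi E) ≤ I → vanIdeal ℂ E ⊓ RingHom.ker (psi E) ≤ I' →
      (∀ g : MvPolynomial (UT E) ℂ, rename Subtype.val g ∈ I → g = 0) →
      (∀ i : Fin n, X (sg i i) ∉ I') → I ≤ I' := by
    intro I I' hI' hJ hJ' hinj hX f hf
    obtain ⟨D, hD, g, ⟨g', hg'⟩, h1⟩ := QQ_all hlab hcp f
    have h2 : g ∈ I := by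
      have h3 : g = D * f - (D * f - g) := by ring
      rw [h3]
      exact I.sub_mem (I.mul_mem_left _ hf) (hJ h1)
    have h3 : g = 0 := by
      have h4 : rename Subtype.val g' = g := hg'
      rw [← h4] at h2
      rw [← h4, hinj g' h2, map_zero]
    rw [h3, sub_zero] at h1
    have h4 := hJ' h1
    rcases hI'.mem_or_mem h4 with h5 | h5
    · exfalso
      have h6 : MD n ≤ I'.primeCompl := by
        unfold MD
        rw [Submonoid.closure_le]
        rintro _ ⟨i, rfl⟩
        exact hX i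
      exact h6 hD h5
    · exact h5
  apply le_antisymm
  · refine hgen _ _ hprime' inf_le_left inf_le_right (van_UT hlab hcp) ?_
    intro i h
    have h1 : psi E (X (sg i i)) = 0 := h
    have h2 : psi E (X (sg i i)) = psiVar E i i := by
      unfold psi
      rw [aeval_X]
      unfold sg
      rw [dif_pos le_rfl]
    rw [h2, psiVar_self] at h1
    exact X_ne_zero _ h1
  · refine hgen _ _ hprime inf_le_right inf_le_left (psi_UT hlab) ?_
    intro i h
    have h1 := h (adj E) 1 (adj_par fun _ _ h => h)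
    rw [eval_X, pt_sg, RCLike.ofReal_eq_zero] at h1
    have h2 := cov_diag_pos (adj_acyc hE (F := E) fun _ _ h => h)
      (ω := (1 : Fin n → ℝ)) (fun _ => one_pos) i
    exact h2.ne' h1

end

end Pool.Agent.V11330.TG
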